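import Pool.Agent.Helper21.PF.E8b

/-!
Project PF (MP_b8862a_ag), (E8): the frame case, conclusion.
-/

open Module

namespace PF

variable {E : Type*} [NormedAddCommGroup E] [InnerProductSpace ℝ E] {Φ X : Finset E}

/-- exchange of one summand -/
theorem rep21 (h : NRS Φ) (hX : Sat Φ X)
    (hM : ∀ x ∈ X, inner ℝ x x = (1 : ℝ) → ∃ a ∈ Psi Φ, ∃ b ∈ Psi Φ, inner ℝ a b = (0 : ℝ) ∧ x + x = a + b)
    {a b c b' : E} (ha : a ∈ M21 X) (hb : b ∈ M21 X) (hc : c ∈ M21 X) (hab : inner ℝ a b = (0 : ℝ))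
    (hac : inner ℝ a c = (0 : ℝ)) (hbc : inner ℝ b c = (0 : ℝ)) (hv : a + b + c ∈ X) (hb' : b' ∈ M21 X)
    (hab' : inner ℝ a b' = (0 : ℝ)) (hcb' : inner ℝ c b' = (0 : ℝ)) : a + b' + c ∈ X := by
  have a1 := (mem_M21.1 ha).2
  have b1 := (mem_M21.1 hb).2
  have c1 := (mem_M21.1 hc).2
  have hca : inner ℝ c a = (0 : ℝ) := by rw [real_inner_comm]; exact hac
  have hba : inner ℝ b a = (0 : ℝ) := by rw [real_inner_comm]; exact hab
  have hcb : inner ℝ c b = (0 : ℝ) := by rw [real_inner_comm]; exact hbc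
  rcases M_cases21 h hX hb hb' with h1 | h1 | h1
  · rw [h1]; exact hv
  · have hg := M_add21 h hX hM ha hc hac
    have h2 : inner ℝ (a + b + c) (a + c) = (2 : ℝ) := by
      rw [inner_add_left, inner_add_left, inner_add_right, inner_add_right, inner_add_right, a1, c1, hca, hac,
        hba, hbc]
      norm_num
    have h3 := hX.str_short21 hg hv (j := 2) (by rw [h2]; norm_num)
    have h4 := hX.neg _ h3
    have h5 : -(a + b + c - ((2 : ℕ) : ℝ) • (a + c)) = a + b' + c := by
      rw [h1, Nat.cast_ofNat, two_smul]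
      abel
    rwa [h5] at h4
  · have hg := M_diff21 h hX hM hb hb' h1
    have h2 : inner ℝ (a + b + c) (b - b') = (1 : ℝ) := by
      rw [inner_add_left, inner_add_left, inner_sub_right, inner_sub_right, inner_sub_right, b1, hab, hab',
        hcb, hcb', h1]
      norm_num
    have h3 := hX.str_short21 hg hv (j := 1) (by rw [h2]; norm_num)
    have h5 : a + b + c - ((1 : ℕ) : ℝ) • (b - b') = a + b' + c := by
      rw [Nat.cast_one, one_smul]
      abel
    rwa [h5] at h3

/-- all sums with a fixed summand -/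
theorem rep2_21 (h : NRS Φ) (hX : Sat Φ X)
    (hM : ∀ x ∈ X, inner ℝ x x = (1 : ℝ) → ∃ a ∈ Psi Φ, ∃ b ∈ Psi Φ, inner ℝ a b = (0 : ℝ) ∧ x + x = a + b)
    {a b c b' c' : E} (ha : a ∈ M21 X) (hb : b ∈ M21 X) (hc : c ∈ M21 X) (hab : inner ℝ a b = (0 : ℝ))
    (hac : inner ℝ a c = (0 : ℝ)) (hbc : inner ℝ b c = (0 : ℝ)) (hv : a + b + c ∈ X) (hb' : b' ∈ M21 X)
    (hc' : c' ∈ M21 X) (hab' : inner ℝ a b' = (0 : ℝ)) (hac' : inner ℝ a c' = (0 : ℝ))
    (hbc' : inner ℝ b' c' = (0 : ℝ)) : a + b' + c' ∈ X := by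
  have hcb' : inner ℝ c' b' = (0 : ℝ) := by rw [real_inner_comm]; exact hbc'
  have hcb : inner ℝ c b = (0 : ℝ) := by rw [real_inner_comm]; exact hbc
  have hvs : a + c + b ∈ X := by
    have : a + c + b = a + b + c := by abel
    rwa [this]
  by_cases h1 : inner ℝ b c' = (0 : ℝ)
  · -- replace `c` by `c'`, then `b` by `b'`
    have h2 := rep21 h hX hM ha hc hb hac hab hcb hvs hc' hac' h1
    have h3 : a + b + c' ∈ X := by
      have : a + b + c' = a + c' + b := by abel
      rwa [this]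
    exact rep21 h hX hM ha hb hc' hab hac' h1 h3 hb' hab' hcb'
  · -- `c' = b` or `c' = -b`
    have h2 : inner ℝ c c' = (0 : ℝ) := by
      rcases M_cases21 h hX hb hc' with h3 | h3 | h3
      · rw [h3]; exact hcb
      · rw [h3, inner_neg_right, hcb, neg_zero]
      · exact absurd h3 h1
    have h2' : inner ℝ c' c = (0 : ℝ) := by rw [real_inner_comm]; exact h2
    have h3 := rep21 h hX hM ha hb hc hab hac hbc hv hc' hac' h2
    have h4 : a + c + c' ∈ X := by
      have : a + c + c' = a + c' + c := by abel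
      rwa [this]
    exact rep21 h hX hM ha hc hc' hac hac' h2 h4 hb' hab' hcb'

theorem card_Nb_le21 (h : NRS Φ) (hX : Sat Φ X) (hne : (M21 X).Nonempty) {g : E} (hg : g ∈ Psi Φ) :
    (Nb Φ g).card ≤ 2 * ((M21 X).card - 4) := by
  classical
  obtain ⟨x, hx, y, hy, hgxy, hxy⟩ := Psi_eq_sub21 h hX hne hg
  have hyx : inner ℝ y x = (0 : ℝ) := by rw [real_inner_comm]; exact hxy
  obtain ⟨hn1, hn2⟩ := M_ne21 hx hy hxy
  have x1 := (mem_M21.1 hx).2
  have y1 := (mem_M21.1 hy).2
  have hxn : x ≠ -x := by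
    intro h1
    have h2 : inner ℝ x x = inner ℝ x (-x) := by rw [← h1]
    rw [inner_neg_right, x1] at h2
    norm_num at h2
  have hyn : y ≠ -y := by
    intro h1
    have h2 : inner ℝ y y = inner ℝ y (-y) := by rw [← h1]
    rw [inner_neg_right, y1] at h2
    norm_num at h2
  set M' := (M21 X).filter (fun z => inner ℝ z x = (0 : ℝ) ∧ inner ℝ z y = (0 : ℝ)) with hM'
  have hM'c : M'.card + 4 ≤ (M21 X).card := by
    have h1 : Disjoint M' {x, -x, y, -y} := by
      rw [Finset.disjoint_left]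
      intro z hz hz'
      obtain ⟨_, hz1, hz2⟩ := Finset.mem_filter.1 hz
      simp only [Finset.mem_insert, Finset.mem_singleton] at hz'
      rcases hz' with rfl | rfl | rfl | rfl
      · rw [x1] at hz1; norm_num at hz1
      · rw [inner_neg_left, x1] at hz1; norm_num at hz1
      · rw [y1] at hz2; norm_num at hz2
      · rw [inner_neg_left, y1] at hz2; norm_num at hz2
    have h2 : M' ∪ {x, -x, y, -y} ⊆ M21 X := by
      intro z hz
      rcases Finset.mem_union.1 hz with hz | hz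
      · exact (Finset.mem_filter.1 hz).1
      · simp only [Finset.mem_insert, Finset.mem_singleton] at hz
        rcases hz with rfl | rfl | rfl | rfl
        · exact hx
        · exact M_neg21 hX hx
        · exact hy
        · exact M_neg21 hX hy
    have h3 := Finset.card_le_card h2
    rw [Finset.card_union_of_disjoint h1] at h3
    have h4 : ({x, -x, y, -y} : Finset E).card = 4 := by
      rw [Finset.card_insert_of_notMem, Finset.card_insert_of_notMem, Finset.card_pair hyn]
      · simp only [Finset.mem_insert, Finset.mem_singleton, not_or]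
        exact ⟨fun h => hn2 h.symm, fun h => hn1 (neg_injective h).symm⟩
      · simp only [Finset.mem_insert, Finset.mem_singleton, not_or]
        exact ⟨hxn, fun h => hn1 h.symm, fun h => hn2 (by rw [h, neg_neg])⟩
    omega
  have hsub : Nb Φ g ⊆ M'.image (fun z => x - z) ∪ M'.image (fun z => z - y) := by
    intro d hd
    rw [mem_Nb] at hd
    obtain ⟨hd, hdg⟩ := hd
    rw [hgxy, inner_sub_right, real_inner_comm x d, real_inner_comm y d] at hdg
    rw [Finset.mem_union, Finset.mem_image, Finset.mem_image]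
    rcases M_short21 hX hd hx with h1 | h1 | h1
    · left
      have h2 : inner ℝ y d = (0 : ℝ) := by linarith
      refine ⟨x - d, Finset.mem_filter.2 ⟨M_sub21 hX hd hx h1, ?_, ?_⟩, by abel⟩
      · rw [inner_sub_left, x1, real_inner_comm x d, h1, sub_self]
      · rw [inner_sub_left, hxy, real_inner_comm y d, h2, sub_self]
    · right
      have h2 : inner ℝ y d = (-1 : ℝ) := by linarith
      have h3 : y - -d ∈ M21 X := M_sub21 hX (h.neg_Psi hd) hy (by rw [inner_neg_right, h2, neg_neg])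
      refine ⟨y - -d, Finset.mem_filter.2 ⟨h3, ?_, ?_⟩, by abel⟩
      · rw [inner_sub_left, inner_neg_left, hyx, real_inner_comm x d, h1]
        norm_num
      · rw [inner_sub_left, inner_neg_left, y1, real_inner_comm y d, h2]
        norm_num
    · exfalso
      rcases M_short21 hX hd hy with h2 | h2 | h2 <;> rw [h1, h2] at hdg <;> norm_num at hdg
  have h1 := Finset.card_le_card hsub
  have h2 : (M'.image (fun z => x - z) ∪ M'.image (fun z => z - y)).card ≤ M'.card + M'.card :=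
    (Finset.card_union_le _ _).trans (add_le_add Finset.card_image_le Finset.card_image_le)
  omega

theorem no_six21 (h : NRS Φ) (hX : Sat Φ X) (hne : (M21 X).Nonempty) : ∀ b ∈ Φ, inner ℝ b b ≠ (6 : ℝ) := by
  intro b hb h6
  obtain ⟨x, hx, hbx⟩ := M_touch21 h hX hne hb
  obtain ⟨k, hk⟩ := hX.int b hb x (mem_M21.1 hx).1
  have h1 := co_mul_self21 (h.ne_zero b hb) x
  rw [hk, h6] at h1
  have hcs := real_inner_mul_inner_self_le x b
  rw [(mem_M21.1 hx).2, h6] at hcs
  have hk0 : k ≠ 0 := by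
    rintro rfl
    apply hbx
    rw [real_inner_comm]
    push_cast at h1
    linarith
  have h2 : inner ℝ x b = 3 * (k : ℝ) := by linarith
  rw [h2] at hcs
  have h3 : (1 : ℝ) ≤ (k : ℝ) * k := by
    have : 1 ≤ k * k := by
      rcases lt_or_gt_of_ne hk0 with h4 | h4 <;> nlinarith
    exact_mod_cast this
  nlinarith

/-- (E8) with a bound `n` for the number of elements -/
theorem frame21 (h : NRS Φ) (hX : Sat Φ X) (hu : ∃ g ∈ Psi Φ, (Nb Φ g).Nonempty)
    (hM : ∀ x ∈ X, inner ℝ x x = (1 : ℝ) → ∃ a ∈ Psi Φ, ∃ b ∈ Psi Φ, inner ℝ a b = (0 : ℝ) ∧ x + x = a + b)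
    (hne : ∃ x ∈ X, inner ℝ x x = (1 : ℝ))
    {n p : ℕ} (hn : X.card ≤ n) (hp : 25 * n ≤ p ^ 2) {a lam : E} (ha : a ∈ Φ) (hl : lam ∈ X)
    (hle : (p : ℝ) ≤ co a lam + qs Φ a) : TypeD Φ X := by
  classical
  obtain ⟨g₀, hg₀, hu⟩ := hu
  have hne : (M21 X).Nonempty := by
    obtain ⟨x, hx, hx1⟩ := hne
    exact ⟨x, mem_M21.2 ⟨hx, hx1⟩⟩
  obtain ⟨T, hT, hort, hcov, hcard⟩ := exists_frame21 h hX
  -- three elements
  have hT3 : 3 ≤ T.card := by
    obtain ⟨a, ha, b, hb, c, hc, hab, hac, hbc⟩ := exists_three21 h hX hne hg₀ hu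
    have hs : ∀ x ∈ M21 X, ∃ x' ∈ T, x' = x ∨ x' = -x := by
      intro x hx
      rcases hcov x hx with h1 | h1
      · exact ⟨x, h1, Or.inl rfl⟩
      · exact ⟨-x, h1, Or.inr rfl⟩
    obtain ⟨a', ha', ha2⟩ := hs a ha
    obtain ⟨b', hb', hb2⟩ := hs b hb
    obtain ⟨c', hc', hc2⟩ := hs c hc
    have h0 : ∀ x y x' y' : E, inner ℝ x y = (0 : ℝ) → (x' = x ∨ x' = -x) → (y' = y ∨ y' = -y) → x' ∈ T → x' ≠ y' := by
      intro x y x' y' hxy hx hy hx' hxy'
      have h1 : inner ℝ x' y' = (0 : ℝ) := by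
        rcases hx with rfl | rfl <;> rcases hy with rfl | rfl <;>
          simp only [inner_neg_left, inner_neg_right, hxy, neg_zero]
      rw [← hxy', (mem_M21.1 (hT hx')).2] at h1
      norm_num at h1
    have h1 : ({a', b', c'} : Finset E) ⊆ T := by
      intro x hx
      simp only [Finset.mem_insert, Finset.mem_singleton] at hx
      rcases hx with rfl | rfl | rfl
      · exact ha'
      · exact hb'
      · exact hc'
    have h2 : ({a', b', c'} : Finset E).card = 3 := by
      rw [Finset.card_eq_three]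
      exact ⟨a', b', c', h0 a b a' b' hab ha2 hb2 ha', h0 a c a' c' hac ha2 hc2 ha',
        h0 b c b' c' hbc hb2 hc2 hb', rfl⟩
    have h3 := Finset.card_le_card h1
    omega
  have hsub : M21 X ⊆ X := fun x hx => (mem_M21.1 hx).1
  by_cases hXM : ∀ x ∈ X, x ∈ M21 X
  · -- the conclusion
    set e := T.equivFin with he
    refine ⟨T.card, fun i => (e.symm i : E), ?_, 1, one_pos, hT3, ?_, ?_⟩
    · rw [orthonormal_iff_ite]
      intro i j
      by_cases hij : i = j
      · subst hij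
        rw [if_pos rfl]
        exact (mem_M21.1 (hT (e.symm i).2)).2
      · rw [if_neg hij]
        refine hort _ (e.symm i).2 _ (e.symm j).2 ?_
        intro h1
        apply hij
        have h2 := Subtype.ext h1
        exact (e.symm.injective h2).symm
    · intro y
      simp only [one_smul]
      constructor
      · intro hy
        rcases hcov y (hXM y hy) with h1 | h1
        · exact ⟨e ⟨y, h1⟩, Or.inl (by rw [Equiv.symm_apply_apply])⟩
        · exact ⟨e ⟨-y, h1⟩, Or.inr (by rw [Equiv.symm_apply_apply]; simp)⟩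
      · rintro ⟨i, rfl | rfl⟩
        · exact hsub (hT (e.symm i).2)
        · exact hX.neg _ (hsub (hT (e.symm i).2))
    · intro i j hij
      simp only [one_smul]
      have h0 : inner ℝ (e.symm i : E) (e.symm j : E) = (0 : ℝ) := by
        refine hort _ (e.symm i).2 _ (e.symm j).2 ?_
        intro h1
        apply hij
        have h2 := Subtype.ext h1
        exact (e.symm.injective h2).symm
      have h1 := M_add21 h hX hM (hT (e.symm i).2) (hT (e.symm j).2) h0
      have h2 := M_diff21 h hX hM (hT (e.symm i).2) (hT (e.symm j).2) h0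
      exact ⟨(mem_Psi.1 h1).1, (mem_Psi.1 h2).1, (mem_Psi.1 (h.neg_Psi h1)).1⟩
  · exfalso
    push Not at hXM
    obtain ⟨v₀, hv₀, hv₀M⟩ := hXM
    obtain ⟨v, hv, hmin⟩ := Finset.exists_min_image (X.filter fun w => w ∉ M21 X) (fun x => (inner ℝ x x : ℝ))
      ⟨v₀, Finset.mem_filter.2 ⟨hv₀, hv₀M⟩⟩
    rw [Finset.mem_filter] at hv
    obtain ⟨hv, hvM⟩ := hv
    have hmin' : ∀ w ∈ X, w ∉ M21 X → (inner ℝ v v : ℝ) ≤ inner ℝ w w :=
      fun w hw hwM => hmin w (Finset.mem_filter.2 ⟨hw, hwM⟩)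
    obtain ⟨a', ha', b', hb', c', hc', hab, hac, hbc, hv'⟩ :=
      three_sum21 h hX hM hg₀ hu hv hmin' hvM hne
    rw [hv'] at hv
    have a1 := (mem_M21.1 ha').2
    set T' := T.filter (fun x => inner ℝ a' x = (0 : ℝ)) with hT'
    have hT'c : T.card ≤ T'.card + 1 := by
      have h1 : T.card = T'.card + (T.filter (fun x => ¬ inner ℝ a' x = (0 : ℝ))).card := by
        rw [hT', Finset.card_filter_add_card_filter_not]
      have h2 : (T.filter (fun x => ¬ inner ℝ a' x = (0 : ℝ))).card ≤ 1 := by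
        rw [Finset.card_le_one]
        intro x hx y hy
        obtain ⟨hx1, hx2⟩ := Finset.mem_filter.1 hx
        obtain ⟨hy1, hy2⟩ := Finset.mem_filter.1 hy
        by_contra hxy
        have h3 := hort x hx1 y hy1 (fun h => hxy h.symm)
        rcases M_cases21 h hX ha' (hT hx1) with h4 | h4 | h4
        · rw [h4] at h3; exact hy2 h3
        · rw [h4, inner_neg_left, neg_eq_zero] at h3; exact hy2 h3
        · exact hx2 h4
      omega
    have hxne : ∀ x ∈ T', ∀ y ∈ T', x ≠ y → inner ℝ x y = (0 : ℝ) := fun x hx y hy hxy =>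
      hort x (Finset.mem_filter.1 hx).1 y (Finset.mem_filter.1 hy).1 (fun h => hxy h.symm)
    have hfam : (T'.offDiag).image (fun s : E × E => a' + s.1 + -s.2) ⊆ X := by
      intro w hw
      obtain ⟨⟨x, y⟩, hs, rfl⟩ := Finset.mem_image.1 hw
      rw [Finset.mem_offDiag] at hs
      obtain ⟨hx, hy, hxy⟩ := hs
      simp only at hx hy hxy ⊢
      obtain ⟨hx1, hx2⟩ := Finset.mem_filter.1 hx
      obtain ⟨hy1, hy2⟩ := Finset.mem_filter.1 hy
      exact rep2_21 h hX hM ha' hb' hc' hab hac hbc hv (hT hx1) (M_neg21 hX (hT hy1)) hx2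
        (by rw [inner_neg_right, hy2, neg_zero]) (by rw [inner_neg_right, hxne x hx y hy hxy, neg_zero])
    have hinj : Set.InjOn (fun s : E × E => a' + s.1 + -s.2) (T'.offDiag : Set (E × E)) := by
      rintro ⟨x, y⟩ hs ⟨x', y'⟩ hs' hss
      rw [Finset.mem_coe, Finset.mem_offDiag] at hs hs'
      obtain ⟨hx, hy, hxy⟩ := hs
      obtain ⟨hx', hy', hxy'⟩ := hs'
      simp only at hx hy hxy hx' hy' hxy' hss
      have e1 : x + -y = x' + -y' := by
        rw [add_assoc, add_assoc] at hss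
        exact add_left_cancel hss
      have e2 : x = x' := by
        by_contra hne'
        have e3 : inner ℝ (x + -y) x = (inner ℝ (x' + -y') x : ℝ) := by rw [e1]
        rw [inner_add_left, inner_add_left, inner_neg_left, inner_neg_left,
          (mem_M21.1 (hT (Finset.mem_filter.1 hx).1)).2, hxne y hy x hx hxy.symm,
          hxne x' hx' x hx (fun h => hne' h.symm)] at e3
        by_cases e4 : y' = x
        · rw [e4, (mem_M21.1 (hT (Finset.mem_filter.1 hx).1)).2] at e3
          norm_num at e3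
        · rw [hxne y' hy' x hx e4] at e3
          norm_num at e3
      subst e2
      rw [neg_injective (add_left_cancel e1)]
    have hdisj : Disjoint (M21 X) ((T'.offDiag).image (fun s : E × E => a' + s.1 + -s.2)) := by
      rw [Finset.disjoint_left]
      intro w hw hw'
      obtain ⟨⟨x, y⟩, hs, rfl⟩ := Finset.mem_image.1 hw'
      rw [Finset.mem_offDiag] at hs
      obtain ⟨hx, hy, hxy⟩ := hs
      simp only at hx hy hxy hw
      obtain ⟨hx1, hx2⟩ := Finset.mem_filter.1 hx
      obtain ⟨hy1, hy2⟩ := Finset.mem_filter.1 hy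
      have h1 := (mem_M21.1 hw).2
      have hyx := hxne y hy x hx hxy.symm
      have hxy0 := hxne x hx y hy hxy
      have hxa : inner ℝ x a' = (0 : ℝ) := by rw [real_inner_comm]; exact hx2
      have hya : inner ℝ y a' = (0 : ℝ) := by rw [real_inner_comm]; exact hy2
      simp only [inner_add_left, inner_add_right, inner_neg_left, inner_neg_right, a1, hx2, hxa, hy2, hya, hyx,
        hxy0, (mem_M21.1 (hT hx1)).2, (mem_M21.1 (hT hy1)).2] at h1
      norm_num at h1
    have hXcard : (M21 X).card + (T'.card * T'.card - T'.card) ≤ X.card := by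
      rw [← Finset.offDiag_card, ← Finset.card_image_of_injOn hinj, ← Finset.card_union_of_disjoint hdisj]
      exact Finset.card_le_card (Finset.union_subset hsub hfam)
    -- the maximum
    obtain ⟨⟨x, g⟩, hxg, hmax⟩ := Finset.exists_max_image (X ×ˢ Psi Φ) (fun s => (inner ℝ s.1 s.2 : ℝ))
      ⟨(lam, g₀), Finset.mem_product.2 ⟨hl, hg₀⟩⟩
    rw [Finset.mem_product] at hxg
    obtain ⟨hx, hg⟩ := hxg
    simp only at hx hg hmax
    have hmax' : ∀ y ∈ X, ∀ d ∈ Psi Φ, inner ℝ y d ≤ (inner ℝ x g : ℝ) :=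
      fun y hy d hd => hmax (y, d) (Finset.mem_product.2 ⟨hy, hd⟩)
    have hug : (Nb Φ g).Nonempty := by
      rw [← Finset.card_pos, h.card_Nb' hg₀ hg, Finset.card_pos]
      exact hu
    have hstr := hX.card_str h hg hug hx hmax'
    have hco := h.co_le (x := lam) (A := inner ℝ x g) (fun d hd => hmax' lam hl d hd) ha
    have hqs := h.qs_le (no_six21 h hX hne) hg hug ha
    have hNb := card_Nb_le21 h hX hne hg
    -- numerics
    set A : ℝ := inner ℝ x g with hA
    set N := T.card with hN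
    obtain ⟨r, hr⟩ := Nat.exists_eq_add_of_le hT3
    have hNbR : ((Nb Φ g).card : ℝ) ≤ 4 * ((r : ℝ) + 1) := by
      have : (Nb Φ g).card ≤ 4 * (r + 1) := by omega
      exact_mod_cast this
    have hT'2 : r + 2 ≤ T'.card := by omega
    have hXc : 2 * (3 + r) + (r + 2) * (r + 1) ≤ X.card := by
      have h1 : (r + 2) * (r + 1) ≤ T'.card * T'.card - T'.card := by
        obtain ⟨q, hq⟩ := Nat.exists_eq_add_of_le hT'2
        have h2 : T'.card * T'.card - T'.card = T'.card * (T'.card - 1) := by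
          rw [Nat.mul_sub, mul_one]
        rw [h2, hq]
        have h3 : r + 2 + q - 1 = r + 1 + q := by omega
        rw [h3]
        exact Nat.mul_le_mul (by omega) (by omega)
      omega
    have hnR : 2 * (3 + (r : ℝ)) + (r + 2) * (r + 1) ≤ (n : ℝ) := by exact_mod_cast hXc.trans hn
    have hXn : (X.card : ℝ) ≤ n := by exact_mod_cast hn
    have hpA : (p : ℝ) ≤ A + (2 * (r : ℝ) + 9) := by linarith
    have hpR : 25 * (n : ℝ) ≤ (p : ℝ) ^ 2 := by exact_mod_cast hp
    have hp0 : (0 : ℝ) ≤ p := Nat.cast_nonneg p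
    have hr0 : (0 : ℝ) ≤ r := Nat.cast_nonneg r
    have h1 : (p : ℝ) ^ 2 ≤ (A + (2 * (r : ℝ) + 9)) ^ 2 := by
      exact pow_le_pow_left₀ hp0 hpA 2
    have h2 : (A + (2 * (r : ℝ) + 9)) ^ 2 ≤ 3 * A ^ 2 + 3 / 2 * (2 * (r : ℝ) + 9) ^ 2 := by
      nlinarith [sq_nonneg (2 * A - (2 * (r : ℝ) + 9))]
    have hA0 : 0 ≤ A := by
      have h3 := hmax' x hx (-g) (h.neg_Psi hg)
      rw [inner_neg_right] at h3
      linarith
    nlinarith

/-- **(E8)** -/
theorem frame (h : NRS Φ) (hX : Sat Φ X) (hu : ∃ g ∈ Psi Φ, (Nb Φ g).Nonempty)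
    (_h1 : ∀ x ∈ X, 1 ≤ (inner ℝ x x : ℝ))
    (hM : ∀ x ∈ X, inner ℝ x x = (1 : ℝ) → ∃ a ∈ Psi Φ, ∃ b ∈ Psi Φ, inner ℝ a b = (0 : ℝ) ∧ x + x = a + b)
    (hne : ∃ x ∈ X, inner ℝ x x = (1 : ℝ)) {p : ℕ} (hp : 25 * X.card ≤ p ^ 2) {a x : E}
    (ha : a ∈ Φ) (hx : x ∈ X) (hb : (p : ℝ) ≤ co a x + qs Φ a) : TypeD Φ X :=
  frame21 h hX hu hM hne le_rfl hp ha hx hb

end PF
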