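import Pool.Agent.Helper2.MON.Tate
import Pool.Agent.Helper98.PF.Dich

/-!
Project PF (MP_b8862a_ag), block D, the `ℓ`-adic half: the tensors fixed by subgroups of finite index of the Galois
group are the tensors fixed by the Mumford-Tate group, if the Hodge numbers are indecomposable, have no common divisor
and satisfy the core property `Core`.
-/

set_option linter.unusedSectionVars false

open Matrix

namespace MH

variable {n : Type*} [Fintype n] [DecidableEq n]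

/-- the adjoint for the form with Gram matrix `G` -/
private noncomputable def tG (Gi G : Matrix n n ℂ) : Matrix n n ℂ →ₗ[ℂ] Matrix n n ℂ where
  toFun x := Gi * xᵀ * G
  map_add' x y := by rw [Matrix.transpose_add, mul_add, add_mul]
  map_smul' c x := by
    rw [Matrix.transpose_smul, mul_smul_comm, smul_mul_assoc]
    rfl

private theorem tG_apply (Gi G x : Matrix n n ℂ) : tG Gi G x = Gi * xᵀ * G := rfl

/-- the Lie algebra in the new basis -/
private noncomputable def LBB (L : Submodule ℂ (Matrix n n ℂ)) (B Bi : Matrix n n ℂ) :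
    Submodule ℂ (Matrix n n ℂ) where
  carrier := {x | cj Bi B x ∈ L}
  add_mem' := by
    intro x y hx hy
    change cj Bi B (x + y) ∈ L
    rw [cj_add]
    exact L.add_mem hx hy
  zero_mem' := by
    change cj Bi B 0 ∈ L
    rw [cj_zero]
    exact L.zero_mem
  smul_mem' := by
    intro c x hx
    change cj Bi B (c • x) ∈ L
    rw [cj_smul]
    exact L.smul_mem c hx

private theorem mem_LBB {L : Submodule ℂ (Matrix n n ℂ)} {B Bi x : Matrix n n ℂ} :
    x ∈ LBB L B Bi ↔ cj Bi B x ∈ L := Iff.rfl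

/-- a matrix that commutes with an irreducible set of matrices is a scalar -/
private theorem schur_of [Nonempty n] (L : Submodule ℂ (Matrix n n ℂ))
    (hirr : ∀ W : Submodule ℂ (n → ℂ), (∀ X ∈ L, ∀ w ∈ W, X *ᵥ w ∈ W) → W = ⊥ ∨ W = ⊤)
    {T : Matrix n n ℂ} (hT : ∀ X ∈ L, T * X = X * T) : ∃ c : ℂ, T = c • (1 : Matrix n n ℂ) := by
  obtain ⟨c, hc⟩ := Module.End.exists_eigenvalue (Matrix.toLin' T)
  refine ⟨c, ?_⟩
  rcases hirr (Module.End.eigenspace (Matrix.toLin' T) c) (by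
    intro X hX w hw
    rw [Module.End.mem_eigenspace_iff, Matrix.toLin'_apply] at hw ⊢
    rw [Matrix.mulVec_mulVec, hT X hX, ← Matrix.mulVec_mulVec, hw, Matrix.mulVec_smul]) with h | h
  · exact absurd h hc
  · apply Dat.mat_ext
    intro u
    have hu : u ∈ Module.End.eigenspace (Matrix.toLin' T) c := by
      rw [h]
      exact Submodule.mem_top
    rw [Module.End.mem_eigenspace_iff, Matrix.toLin'_apply] at hu
    rw [hu, Matrix.smul_mulVec, Matrix.one_mulVec]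

/-- the spectral decomposition of a Hermitian matrix is Hermitian -/
private theorem spec_of {h : Matrix n n ℂ} {E : ℝ → Matrix n n ℂ} {Λ : Finset ℝ} (hE : SD h E Λ) (hh : hᴴ = h) :
    Spec h E Λ := by
  have hF : SD h (fun μ => (E μ)ᴴ) Λ := by
    refine ⟨fun μ ν => ?_, ?_, ?_⟩
    · rw [← Matrix.conjTranspose_mul, hE.mul]
      by_cases hμ : μ = ν
      · rw [if_pos hμ, if_pos hμ.symm, hμ]
      · rw [if_neg hμ, if_neg (Ne.symm hμ), Matrix.conjTranspose_zero]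
    · rw [← Matrix.conjTranspose_sum, hE.sum, Matrix.conjTranspose_one]
    · conv_lhs => rw [← hh, hE.eq]
      rw [Matrix.conjTranspose_sum]
      refine Finset.sum_congr rfl fun μ _ => ?_
      rw [Matrix.conjTranspose_smul]
      congr 1
      exact Complex.conj_ofReal μ
  have hz : ∀ μ ν : ℝ, μ ≠ ν → E μ * (E ν)ᴴ = 0 := by
    intro μ ν hμ
    have e1 : E μ * (h * (E ν)ᴴ) = (ν : ℂ) • (E μ * (E ν)ᴴ) := by
      rw [hF.l_mul ν, mul_smul_comm]
    rw [← mul_assoc, hE.mul_l, smul_mul_assoc] at e1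
    have e2 : ((μ : ℂ) - ν) • (E μ * (E ν)ᴴ) = 0 := by rw [sub_smul, e1, sub_self]
    rcases smul_eq_zero.1 e2 with e3 | e3
    · exact absurd (by exact_mod_cast sub_eq_zero.1 e3) hμ
    · exact e3
  refine ⟨fun μ => ?_, hE.mul, fun μ hμ => hE.supp hμ, hE.sum, hE.eq⟩
  by_cases hμ : μ ∈ Λ
  · have e1 : E μ = E μ * (E μ)ᴴ := by
      conv_lhs => rw [← mul_one (E μ), ← hF.sum, Finset.mul_sum]
      rw [Finset.sum_eq_single_of_mem μ hμ]
      intro ν _ hν
      exact hz μ ν (Ne.symm hν)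
    have e2 : (E μ)ᴴ = E μ * (E μ)ᴴ := by
      conv_lhs => rw [← one_mul (E μ)ᴴ, ← hE.sum, Finset.sum_mul]
      rw [Finset.sum_eq_single_of_mem μ hμ]
      intro ν _ hν
      exact hz ν μ hν
    rw [e2]
    exact e1.symm
  · rw [hE.supp hμ, Matrix.conjTranspose_zero]

/-- conjugation of a spectral decomposition -/
private theorem sd_cj {h : Matrix n n ℂ} {E : ℝ → Matrix n n ℂ} {Λ : Finset ℝ} (hE : SD h E Λ)
    {B Bi : Matrix n n ℂ} (h1 : B * Bi = 1) (h2 : Bi * B = 1) :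
    SD (cj B Bi h) (fun μ => cj B Bi (E μ)) Λ := by
  refine ⟨fun μ ν => ?_, ?_, ?_⟩
  · rw [cj_mul h2, hE.mul]
    by_cases hμ : μ = ν
    · rw [if_pos hμ, if_pos hμ]
    · rw [if_neg hμ, if_neg hμ, cj_zero]
  · rw [← cj_sum, hE.sum, cj_one h1]
  · conv_lhs => rw [hE.eq, cj_sum]
    exact Finset.sum_congr rfl fun μ _ => cj_smul _ _ _ _

/-- skew matrices in the new basis -/
private theorem tG_cj {Q' Qi B Bi : Matrix n n ℂ} (hQ2 : Qi * Q' = 1) (h2 : Bi * B = 1) {X : Matrix n n ℂ}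
    (hX : Xᵀ * Q' + Q' * X = 0) : tG (B * Qi * Bᵀ) (Biᵀ * Q' * Bi) (cj B Bi X) = -cj B Bi X := by
  have e1 : Bᵀ * Biᵀ = 1 := by rw [← Matrix.transpose_mul, h2, Matrix.transpose_one]
  have e2 : Xᵀ * Q' = -(Q' * X) := eq_neg_of_add_eq_zero_left hX
  rw [tG_apply]
  unfold cj
  rw [Matrix.transpose_mul, Matrix.transpose_mul]
  calc B * Qi * Bᵀ * (Biᵀ * (Xᵀ * Bᵀ)) * (Biᵀ * Q' * Bi)
      = B * Qi * (Bᵀ * Biᵀ) * Xᵀ * (Bᵀ * Biᵀ) * Q' * Bi := by simp only [mul_assoc]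
    _ = B * Qi * (Xᵀ * Q') * Bi := by rw [e1, mul_one, mul_one]; simp only [mul_assoc]
    _ = -(B * (Qi * Q') * X * Bi) := by rw [e2, mul_neg, neg_mul]; simp only [mul_assoc]
    _ = -(B * X * Bi) := by rw [hQ2, mul_one]

/-- the data of the theorem on a dominating middle eigenvalue -/
private theorem dat_irr [Nonempty n] {Q' Qi : Matrix n n ℂ} (hQs : Q'ᵀ = Q') (hQ1 : Q' * Qi = 1) (hQ2 : Qi * Q' = 1)
    {L : Submodule ℂ (Matrix n n ℂ)} (hbr : ∀ X ∈ L, ∀ Y ∈ L, X * Y - Y * X ∈ L)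
    (hirr : ∀ W : Submodule ℂ (n → ℂ), (∀ X ∈ L, ∀ w ∈ W, X *ᵥ w ∈ W) → W = ⊥ ∨ W = ⊤)
    (hsk : ∀ X ∈ L, Xᵀ * Q' + Q' * X = 0) {h : Matrix n n ℂ} (hh : h ∈ L) {E : ℝ → Matrix n n ℂ} {Λ : Finset ℝ}
    (hE : SD h E Λ) {B Bi : Matrix n n ℂ} (h1 : B * Bi = 1) (h2 : Bi * B = 1) (h3 : (cj B Bi h)ᴴ = cj B Bi h)
    (h4 : ∀ X ∈ L, cj Bi B (cj B Bi X)ᴴ ∈ L) :
    Dat (tG (B * Qi * Bᵀ) (Biᵀ * Q' * Bi)) (LBB L B Bi) (cj B Bi h) (fun μ => cj B Bi (E μ)) Λ := by
  have b1 : Bᵀ * Biᵀ = 1 := by rw [← Matrix.transpose_mul, h2, Matrix.transpose_one]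
  have b2 : Biᵀ * Bᵀ = 1 := by rw [← Matrix.transpose_mul, h1, Matrix.transpose_one]
  have hGiG : B * Qi * Bᵀ * (Biᵀ * Q' * Bi) = 1 := by
    calc B * Qi * Bᵀ * (Biᵀ * Q' * Bi) = B * Qi * (Bᵀ * Biᵀ) * Q' * Bi := by simp only [mul_assoc]
      _ = B * (Qi * Q') * Bi := by rw [b1, mul_one]; simp only [mul_assoc]
      _ = 1 := by rw [hQ2, mul_one, h1]
  have hGGi : Biᵀ * Q' * Bi * (B * Qi * Bᵀ) = 1 := by
    calc Biᵀ * Q' * Bi * (B * Qi * Bᵀ) = Biᵀ * Q' * (Bi * B) * Qi * Bᵀ := by simp only [mul_assoc]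
      _ = Biᵀ * (Q' * Qi) * Bᵀ := by rw [h2, mul_one]; simp only [mul_assoc]
      _ = 1 := by rw [hQ1, mul_one, b2]
  have hGt : (Biᵀ * Q' * Bi)ᵀ = Biᵀ * Q' * Bi := by
    rw [Matrix.transpose_mul, Matrix.transpose_mul, Matrix.transpose_transpose, hQs, mul_assoc]
  have hsk' : ∀ x ∈ LBB L B Bi, tG (B * Qi * Bᵀ) (Biᵀ * Q' * Bi) x = -x := by
    intro x hx
    have e1 := tG_cj (B := B) hQ2 h2 (hsk _ (mem_LBB.1 hx))
    rwa [cj_cj h1] at e1
  have hst' : ∀ x ∈ LBB L B Bi, xᴴ ∈ LBB L B Bi := by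
    intro x hx
    have e1 := h4 _ (mem_LBB.1 hx)
    rwa [cj_cj h1] at e1
  have hirr' : ∀ T : Matrix n n ℂ, (∀ x ∈ LBB L B Bi, T * x = x * T) → ∃ c : ℂ, T = c • (1 : Matrix n n ℂ) := by
    intro T hT
    obtain ⟨c, hc⟩ := schur_of L hirr (T := cj Bi B T) (by
      intro X hX
      have e1 := hT (cj B Bi X) (by rw [mem_LBB, cj_cj h2]; exact hX)
      have e2 := congrArg (cj Bi B) e1
      rwa [← cj_mul h1, ← cj_mul h1, cj_cj h2] at e2)
    refine ⟨c, ?_⟩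
    have e3 := congrArg (cj B Bi) hc
    rwa [cj_cj h1, cj_smul, cj_one h1] at e3
  generalize B * Qi * Bᵀ = Gi at hGiG hGGi hsk' ⊢
  generalize Biᵀ * Q' * Bi = G at hGiG hGGi hGt hsk' ⊢
  have hGit : Giᵀ = Gi := by
    have e1 : Giᵀ * G = 1 := by
      have e2 := congrArg Matrix.transpose hGGi
      rwa [Matrix.transpose_mul, hGt, Matrix.transpose_one] at e2
    calc Giᵀ = Giᵀ * (G * Gi) := by rw [hGGi, mul_one]
      _ = Gi := by rw [← mul_assoc, e1, one_mul]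
  have hsk2 : ∀ x ∈ LBB L B Bi, xᵀ * G = -(G * x) := by
    intro x hx
    calc xᵀ * G = G * (Gi * xᵀ * G) := by simp only [← mul_assoc]; rw [hGGi, one_mul]
      _ = -(G * x) := by rw [← tG_apply, hsk' x hx, mul_neg]
  obtain ⟨c, hc⟩ := hirr' (Gᴴ * G) (by
    intro x hx
    have e1 : (xᴴ)ᵀ * G = -(G * xᴴ) := hsk2 _ (hst' x hx)
    have e2 : Gᴴ * xᵀ = -(x * Gᴴ) := by
      have e3 := congrArg Matrix.conjTranspose e1
      rw [Matrix.conjTranspose_mul, Matrix.conjTranspose_neg, Matrix.conjTranspose_mul,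
        Matrix.conjTranspose_conjTranspose] at e3
      have e4 : ((xᴴ)ᵀ)ᴴ = xᵀ := by
        have : (xᴴ)ᵀ = (xᵀ)ᴴ := rfl
        rw [this, Matrix.conjTranspose_conjTranspose]
      rwa [e4] at e3
    calc Gᴴ * G * x = -(Gᴴ * xᵀ * G) := by rw [mul_assoc, mul_assoc, hsk2 x hx, mul_neg, neg_neg]
      _ = x * (Gᴴ * G) := by rw [e2, neg_mul, neg_neg, mul_assoc])
  have hcr : starRingEnd ℂ c = c := by
    have e1 : (Gᴴ * G)ᴴ = Gᴴ * G := by rw [Matrix.conjTranspose_mul, Matrix.conjTranspose_conjTranspose]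
    rw [hc, Matrix.conjTranspose_smul, Matrix.conjTranspose_one] at e1
    obtain ⟨i⟩ := (inferInstance : Nonempty n)
    have e2 := congrFun (congrFun e1 i) i
    simpa using e2
  have hG1 : Gᴴ = c • Gi := by
    calc Gᴴ = Gᴴ * G * Gi := by rw [mul_assoc, hGGi, mul_one]
      _ = c • Gi := by rw [hc, smul_mul_assoc, one_mul]
  have hG2 : G = c • Giᴴ := by
    have e1 := congrArg Matrix.conjTranspose hG1
    rw [Matrix.conjTranspose_conjTranspose, Matrix.conjTranspose_smul] at e1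
    rw [e1]
    congr 1
  refine ⟨⟨?_, ?_, ?_, ?_⟩, spec_of (sd_cj hE h1 h2) h3, hsk', ?_, hst', hirr', ?_⟩
  · intro x y
    rw [tG_apply, tG_apply, tG_apply, Matrix.transpose_mul]
    calc Gi * (yᵀ * xᵀ) * G = Gi * yᵀ * 1 * xᵀ * G := by rw [mul_one, ← mul_assoc Gi]
      _ = Gi * yᵀ * G * (Gi * xᵀ * G) := by rw [← hGGi]; simp only [mul_assoc]
  · intro x
    rw [tG_apply, tG_apply, Matrix.transpose_mul, Matrix.transpose_mul, Matrix.transpose_transpose, hGt, hGit]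
    calc Gi * (G * (x * Gi)) * G = Gi * G * x * (Gi * G) := by simp only [mul_assoc]
      _ = x := by rw [hGiG, one_mul, mul_one]
  · intro x
    rw [tG_apply, tG_apply, Matrix.conjTranspose_mul, Matrix.conjTranspose_mul]
    have e1 : (xᴴ)ᵀ = (xᵀ)ᴴ := rfl
    rw [e1]
    calc Gi * (xᵀ)ᴴ * G = c • (Gi * (xᵀ)ᴴ * Giᴴ) := by
          conv_lhs => rw [hG2]
          rw [mul_smul_comm]
      _ = Gᴴ * ((xᵀ)ᴴ * Giᴴ) := by rw [hG1, smul_mul_assoc, mul_assoc]
  · intro x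
    rw [tG_apply, mul_assoc, Matrix.trace_mul_comm, mul_assoc, hGGi, mul_one, Matrix.trace_transpose]
  · intro x hx y hy
    rw [mem_LBB, cj_sub, ← cj_mul h1, ← cj_mul h1]
    exact hbr _ (mem_LBB.1 hx) _ (mem_LBB.1 hy)
  · rw [mem_LBB, cj_cj h2]
    exact hh

/-- `L` is everything: a bracket closed irreducible space of skew matrices containing a diagonalisable element with
indecomposable multiplicities that satisfy `Core`. -/
theorem full_of_core [Nonempty n] (Q' Qi : Matrix n n ℂ) (hQs : Q'ᵀ = Q') (hQ1 : Q' * Qi = 1) (hQ2 : Qi * Q' = 1)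
    (L : Submodule ℂ (Matrix n n ℂ)) (hbr : ∀ X ∈ L, ∀ Y ∈ L, X * Y - Y * X ∈ L)
    (hirr : ∀ W : Submodule ℂ (n → ℂ), (∀ X ∈ L, ∀ w ∈ W, X *ᵥ w ∈ W) → W = ⊥ ∨ W = ⊤)
    (hsk : ∀ X ∈ L, Xᵀ * Q' + Q' * X = 0) {h : Matrix n n ℂ} (hh : h ∈ L) {E : ℝ → Matrix n n ℂ} {Λ : Finset ℝ}
    (hE : SD h E Λ) {m : ℤ} {r : ℤ → ℕ} (hw : ∀ μ : ℝ, E μ ≠ 0 → ∃ p : ℤ, μ = ((p - m : ℤ) : ℝ))
    (hr : ∀ p : ℤ, (E ((p - m : ℤ) : ℝ)).rank = r p) (hI : NI.Indec (2 * m) r) (hcore : Core n m r)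
    (hd : ∀ d : ℕ, (∀ μ ∈ Λ, d ∣ (E μ).rank) → d = 1)
    (hherm : Nonempty n → (∀ X ∈ L, X.trace = 0) → ∃ B Bi : Matrix n n ℂ, B * Bi = 1 ∧ Bi * B = 1 ∧
      (cj B Bi h)ᴴ = cj B Bi h ∧ ∀ X ∈ L, cj Bi B (cj B Bi X)ᴴ ∈ L)
    {X : Matrix n n ℂ} (hX : Xᵀ * Q' + Q' * X = 0) : X ∈ L := by
  classical
  obtain ⟨B, Bi, h1, h2, h3, h4⟩ := hherm inferInstance (by
    intro Y hY
    have e1 : Yᵀ * Q' = -(Q' * Y) := eq_neg_of_add_eq_zero_left (hsk Y hY)
    have e2 : Y.trace = -Y.trace := by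
      calc Y.trace = (Yᵀ * (Q' * Qi)).trace := by rw [hQ1, mul_one, Matrix.trace_transpose]
        _ = -(Q' * Y * Qi).trace := by rw [← mul_assoc, e1, neg_mul, Matrix.trace_neg]
        _ = -Y.trace := by rw [mul_assoc, Matrix.trace_mul_comm, mul_assoc, hQ2, mul_one]
    exact self_eq_neg.1 e2)
  have D := dat_irr hQs hQ1 hQ2 hbr hirr hsk hh hE h1 h2 h3 h4
  have hEE : ∀ μ, E μ * E μ = E μ := fun μ => by rw [hE.mul, if_pos rfl]
  have r1 : ∀ μ, (cj B Bi (E μ)).rank = (E μ).rank := fun μ => rank_cj h1 h2 (hEE μ)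
  have b1 : Bᵀ * Biᵀ = 1 := by rw [← Matrix.transpose_mul, h2, Matrix.transpose_one]
  have b2 : Biᵀ * Bᵀ = 1 := by rw [← Matrix.transpose_mul, h1, Matrix.transpose_one]
  have hGiG : B * Qi * Bᵀ * (Biᵀ * Q' * Bi) = 1 := by
    calc B * Qi * Bᵀ * (Biᵀ * Q' * Bi) = B * Qi * (Bᵀ * Biᵀ) * Q' * Bi := by simp only [mul_assoc]
      _ = B * (Qi * Q') * Bi := by rw [b1, mul_one]; simp only [mul_assoc]
      _ = 1 := by rw [hQ2, mul_one, h1]
  have hGGi : Biᵀ * Q' * Bi * (B * Qi * Bᵀ) = 1 := by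
    calc Biᵀ * Q' * Bi * (B * Qi * Bᵀ) = Biᵀ * Q' * (Bi * B) * Qi * Bᵀ := by simp only [mul_assoc]
      _ = Biᵀ * (Q' * Qi) * Bᵀ := by rw [h2, mul_one]; simp only [mul_assoc]
      _ = 1 := by rw [hQ1, mul_one, b2]
  have hGt : (Biᵀ * Q' * Bi)ᵀ = Biᵀ * Q' * Bi := by
    rw [Matrix.transpose_mul, Matrix.transpose_mul, Matrix.transpose_transpose, hQs, mul_assoc]
  have hsmp : Smp (LBB L B Bi) := by
    refine D.smp_of_gcd hGGi hGiG hGt (fun x => rfl) (m := m) ?_ ?_ ?_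
    · intro μ hμ
      refine hw μ fun h0 => hμ ?_
      simp only [h0, cj_zero]
    · have e1 : (fun p : ℤ => (cj B Bi (E ((p - m : ℤ) : ℝ))).rank) = r := by
        funext p
        rw [r1, hr]
      rw [e1]
      exact hI
    · intro d hdd
      refine hd d fun μ hμ => ?_
      rw [← r1 μ]
      exact hdd μ hμ
  have hsmpL : Smp L := by
    intro K hK hid
    rcases hsmp (LBB K B Bi) (fun x hx => hK hx) (by
      intro x hx y hy
      rw [mem_LBB, cj_sub, ← cj_mul h1, ← cj_mul h1]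
      exact hid _ (mem_LBB.1 hx) _ (mem_LBB.1 hy)) with h5 | h5
    · left
      rw [eq_bot_iff]
      intro Y hY
      have h6 : cj B Bi Y ∈ LBB K B Bi := by
        rw [mem_LBB, cj_cj h2]
        exact hY
      rw [h5, Submodule.mem_bot] at h6
      rw [Submodule.mem_bot, ← cj_cj h2 Y, h6, cj_zero]
    · right
      refine le_antisymm hK ?_
      intro Y hY
      have h6 : cj B Bi Y ∈ LBB L B Bi := by
        rw [mem_LBB, cj_cj h2]
        exact hY
      rw [← h5, mem_LBB, cj_cj h2] at h6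
      exact h6
  exact hcore Q' Qi hQs hQ1 hQ2 L hbr hirr hsk hsmpL h E Λ hh hE hw hr X hX

variable {m : ℤ} {Q : Matrix n n ℚ} {S : Finset ℤ} {P R : ℤ → Matrix n n ℂ} {Γ : Subgroup (GL n ℂ)}

/-- All skew matrices kill the tensors fixed by subgroups of finite index of the Galois group. -/
theorem LG_full_core [Nonempty n] (H : IsHS m Q S P) (G : IsGal m Q S P Γ R) (hirr : VIrr Γ)
    (hI : NI.Indec (2 * m) (fun p => (P p).rank)) (hcore : Core n m (fun p => (P p).rank))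
    (hd : ∀ d : ℕ, (∀ p, d ∣ (P p).rank) → d = 1) :
    ∀ X : Matrix n n ℂ, Xᵀ * toC Q + toC Q * X = 0 → X ∈ LG Γ := by
  classical
  have hn0 : ((Fintype.card n : ℕ) : ℂ) ≠ 0 := by
    exact_mod_cast Fintype.card_ne_zero
  obtain ⟨B, Bi, Qi, _, _, hQ1, hQ2, _⟩ := H.exists_basis
  have hQ0 : toC Q ≠ 0 := by
    intro h
    rw [h, zero_mul] at hQ1
    exact one_ne_zero hQ1.symm
  have hQd : (toC Q).det ≠ 0 := by
    intro h
    have := congrArg Matrix.det hQ1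
    rw [Matrix.det_mul, h, zero_mul, Matrix.det_one] at this
    exact zero_ne_one this
  -- the Lie algebra `LG` is irreducible
  have hsum0 : ∑ p ∈ S, ((p - 0 : ℤ) : ℂ) • R p = ∑ p ∈ S, (p : ℂ) • R p := by simp
  have hG : ∀ W : Submodule ℂ (n → ℂ), (∀ X ∈ LG Γ, ∀ w ∈ W, X *ᵥ w ∈ W) → W = ⊥ ∨ W = ⊤ := by
    intro W hW
    refine clifford (LG Γ) (fun g hg X hX => LG_conj hg hX) hirr G.h_mem (E := G.EG 0) (Λ := LamS 0 S) ?_ ?_ W hW
    · rw [← hsum0]
      exact G.sd 0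
    · exact fun d hdd => G.div_iff H hd 0 d hdd
  -- scalars
  have hh0 : ∑ p ∈ S, ((p - m : ℤ) : ℂ) • R p = (∑ p ∈ S, (p : ℂ) • R p) - (m : ℂ) • (1 : Matrix n n ℂ) := by
    rw [← G.sum, Finset.smul_sum, ← Finset.sum_sub_distrib]
    refine Finset.sum_congr rfl fun p _ => ?_
    rw [← sub_smul]
    push_cast
    rfl
  have htr := trace_h0 H G
  have h1G : m ≠ 0 → (1 : Matrix n n ℂ) ∈ LG Γ := by
    intro hm
    have h1 := scalar_mem (LG Γ) (fun X hX Y hY => LG_br hX hY) hG G.h_mem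
    have h2 : (∑ p ∈ S, (p : ℂ) • R p).trace = (m : ℂ) * Fintype.card n := by
      rw [hh0, Matrix.trace_sub, Matrix.trace_smul, Matrix.trace_one, smul_eq_mul] at htr
      linear_combination htr
    rw [h2] at h1
    have h3 := (LG Γ).smul_mem ((m : ℂ) * Fintype.card n)⁻¹ h1
    rwa [smul_smul, inv_mul_cancel₀ (mul_ne_zero (by exact_mod_cast hm) hn0), one_smul] at h3
  have hh0G : ∑ p ∈ S, ((p - m : ℤ) : ℂ) • R p ∈ LG Γ := by
    rw [hh0]
    by_cases hm : m = 0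
    · rw [hm, Int.cast_zero, zero_smul, sub_zero]
      exact G.h_mem
    · exact (LG Γ).sub_mem G.h_mem ((LG Γ).smul_mem _ (h1G hm))
  -- the skew part
  have hhS : ∑ p ∈ S, ((p - m : ℤ) : ℂ) • R p ∈ LS Q Γ := by
    refine ⟨hh0G, ?_⟩
    obtain ⟨c, _, hc⟩ := G.LG_sim H hh0G
    set X := ∑ p ∈ S, ((p - m : ℤ) : ℂ) • R p
    have h1 : (Xᵀ + toC Q * X * Qi).trace = c * Fintype.card n := by
      have h2 : Xᵀ + toC Q * X * Qi = c • (1 : Matrix n n ℂ) := by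
        have h3 := congrArg (fun Y => Y * Qi) hc
        simp only [add_mul, smul_mul_assoc, hQ1] at h3
        rw [mul_assoc Xᵀ, hQ1, mul_one] at h3
        exact h3
      rw [h2, Matrix.trace_smul, Matrix.trace_one, smul_eq_mul]
    rw [Matrix.trace_add, Matrix.trace_transpose, Matrix.trace_mul_comm, ← mul_assoc, hQ2, one_mul, htr,
      add_zero] at h1
    have h2 : c = 0 := by
      rcases mul_eq_zero.1 h1.symm with h | h
      · exact h
      · exact absurd h hn0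
    rw [hc, h2, zero_smul]
  have hSirr : ∀ W : Submodule ℂ (n → ℂ), (∀ X ∈ LS Q Γ, ∀ w ∈ W, X *ᵥ w ∈ W) → W = ⊥ ∨ W = ⊤ := by
    intro W hW
    apply hG
    intro X hX w hw
    obtain ⟨c, hc0, hc⟩ := G.LG_sim H hX
    by_cases hm : m = 0
    · exact hW X ⟨hX, by rw [hc, hc0 hm, zero_smul]⟩ w hw
    · have h1 : X - (c / 2) • (1 : Matrix n n ℂ) ∈ LS Q Γ := by
        refine ⟨(LG Γ).sub_mem hX ((LG Γ).smul_mem _ (h1G hm)), ?_⟩
        rw [Matrix.transpose_sub, Matrix.transpose_smul, Matrix.transpose_one, sub_mul, mul_sub, smul_mul_assoc,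
          one_mul, mul_smul_comm, mul_one]
        have : Xᵀ * toC Q - (c / 2) • toC Q + (toC Q * X - (c / 2) • toC Q) =
            (Xᵀ * toC Q + toC Q * X) - c • toC Q := by
          have h2 : c • toC Q = (c / 2) • toC Q + (c / 2) • toC Q := by
            rw [← add_smul]
            congr 1
            ring
          rw [h2]
          abel
        rw [this, hc, sub_self]
      have h2 := hW _ h1 w hw
      have h3 : X *ᵥ w = (X - (c / 2) • (1 : Matrix n n ℂ)) *ᵥ w + (c / 2) • w := by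
        rw [Matrix.sub_mulVec, Matrix.smul_mulVec, Matrix.one_mulVec]
        abel
      rw [h3]
      exact W.add_mem h2 (W.smul_mem _ hw)
  -- everything skew is in the Lie algebra
  intro X hX
  have hfull := full_of_core (toC Q) Qi H.Q_symm hQ1 hQ2 (LS Q Γ) (fun X hX Y hY => LS_br hX hY) hSirr
      (fun X hX => hX.2) hhS (G.sd m) (m := m) (r := fun p => (P p).rank) ?_ ?_ hI hcore
      (fun d hdd => G.div_iff H hd m d hdd)
      (fun _ htr => exists_herm (LS Q Γ) (fun X hX Y hY => LS_br hX hY) hSirr htr hhS (G.sd m)) hX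
  · exact hfull.1
  · intro μ hμ
    by_contra hcon
    push Not at hcon
    apply hμ
    exact G.EG_other m fun p _ h => hcon p h.symm
  · intro p
    rw [G.EG_int, G.rank]

/-- **The tensors fixed by subgroups of finite index of the Galois group are the tensors fixed by the Mumford-Tate
group.** -/
theorem tate_iff_core [Nonempty n] (H : IsHS m Q S P) (G : IsGal m Q S P Γ R) (hirr : VIrr Γ)
    (hMT : ∀ (g : GL n ℂ) (z : ℂ), (m = 0 → z = 1) → (g : Matrix n n ℂ)ᵀ * toC Q * (g : Matrix n n ℂ) = z ^ 2 • toC Q →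
      (g : Matrix n n ℂ).det = z ^ Fintype.card n → g ∈ MT S P)
    (hI : NI.Indec (2 * m) (fun p => (P p).rank)) (hcore : Core n m (fun p => (P p).rank))
    (hd : ∀ d : ℕ, (∀ p, d ∣ (P p).rank) → d = 1) (a b : ℕ) (t : (Fin a ⊕ Fin b → n) → ℂ) :
    IsTateTensor Γ a b t ↔ ∀ g ∈ MT S P, actF (slot a b (g : Matrix n n ℂ) ((g⁻¹ : GL n ℂ) : Matrix n n ℂ)) t = t :=
  tate_of_full H G hMT (LG_full_core H G hirr hI hcore hd) a b t

end MH
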