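import Pool.Agent.Helper3.PF.Basic

/-!
Project PF (MP_b8862a_ag): elementary facts on finite root systems in a Euclidean space, short roots.
-/

open Module

namespace PF

variable {E : Type*} [NormedAddCommGroup E] [InnerProductSpace ℝ E]

theorem co_add21 (a x y : E) : co a (x + y) = co a x + co a y := by
  unfold co
  rw [inner_add_left]
  ring

theorem co_sub21 (a x y : E) : co a (x - y) = co a x - co a y := by
  unfold co
  rw [inner_sub_left]
  ring

theorem co_smul21 (a x : E) (c : ℝ) : co a (c • x) = c * co a x := by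
  unfold co
  rw [real_inner_smul_left]
  ring

theorem co_mul_self21 {a : E} (ha : a ≠ 0) (x : E) : co a x * inner ℝ a a = 2 * inner ℝ x a := by
  unfold co
  have h1 : inner ℝ a a ≠ (0 : ℝ) := fun h => ha (inner_self_eq_zero.1 h)
  field_simp

theorem co_self21 {a : E} (ha : a ≠ 0) : co a a = 2 := by
  unfold co
  have h1 : inner ℝ a a ≠ (0 : ℝ) := fun h => ha (inner_self_eq_zero.1 h)
  field_simp

/-- reflections are isometries -/
theorem inner_refl21 {a : E} (ha : a ≠ 0) (x y : E) :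
    inner ℝ (x - co a x • a) (y - co a y • a) = inner ℝ x y := by
  have h1 := co_mul_self21 ha x
  have h2 := co_mul_self21 ha y
  rw [inner_sub_left, inner_sub_right, inner_sub_right, real_inner_smul_left, real_inner_smul_left,
    real_inner_smul_right, real_inner_smul_right, real_inner_comm y a]
  linear_combination co a y / 2 * h1 + co a x / 2 * h2

theorem RS.aa_pos21 {Φ : Finset E} (h : RS Φ) {a : E} (ha : a ∈ Φ) : 0 < inner ℝ a a :=
  real_inner_self_pos.2 (h.ne_zero a ha)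

theorem co_short21 {Φ : Finset E} {g : E} (hg : g ∈ Psi Φ) (x : E) : co g x = inner ℝ x g := by
  unfold co
  rw [(mem_Psi.1 hg).2]
  ring

theorem NRS.Psi_refl21 {Φ : Finset E} (h : NRS Φ) {g a : E} (hg : g ∈ Psi Φ) (ha : a ∈ Φ) :
    g - co a g • a ∈ Psi Φ := by
  rw [mem_Psi] at hg ⊢
  exact ⟨h.refl a ha g hg.1, by rw [inner_refl21 (h.ne_zero a ha)]; exact hg.2⟩

theorem NRS.int_short21 {Φ : Finset E} (h : NRS Φ) {g b : E} (hg : g ∈ Psi Φ) (hb : b ∈ Φ) :
    ∃ k : ℤ, inner ℝ b g = (k : ℝ) := by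
  obtain ⟨k, hk⟩ := h.int g (mem_Psi.1 hg).1 b hb
  exact ⟨k, by rw [← co_short21 hg, hk]⟩

/-- inner products of short roots -/
theorem NRS.short_short21 {Φ : Finset E} (h : NRS Φ) {g d : E} (hg : g ∈ Psi Φ) (hd : d ∈ Psi Φ) :
    d = g ∨ d = -g ∨ inner ℝ d g = (1 : ℝ) ∨ inner ℝ d g = (0 : ℝ) ∨ inner ℝ d g = (-1 : ℝ) := by
  obtain ⟨k, hk⟩ := h.int_short21 hg (mem_Psi.1 hd).1
  have g2 := (mem_Psi.1 hg).2
  have d2 := (mem_Psi.1 hd).2
  by_cases h1 : d = g
  · exact Or.inl h1
  by_cases h2 : d = -g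
  · exact Or.inr (Or.inl h2)
  have h3 : 0 < inner ℝ (d - g) (d - g) := real_inner_self_pos.2 (sub_ne_zero.2 h1)
  have h4 : 0 < inner ℝ (d + g) (d + g) := real_inner_self_pos.2 fun h => h2 (eq_neg_of_add_eq_zero_left h)
  rw [inner_sub_left, inner_sub_right, inner_sub_right, real_inner_comm d g, g2, d2, hk] at h3
  rw [inner_add_left, inner_add_right, inner_add_right, real_inner_comm d g, g2, d2, hk] at h4
  have h5 : (k : ℝ) < 2 := by linarith
  have h6 : (-2 : ℝ) < k := by linarith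
  have h7 : k < 2 := by exact_mod_cast h5
  have h8 : -2 < k := by exact_mod_cast h6
  right; right
  rw [hk]
  have h9 : k = 1 ∨ k = 0 ∨ k = -1 := by omega
  rcases h9 with rfl | rfl | rfl
  · left; norm_num
  · right; left; norm_num
  · right; right; norm_num

/-- no root is orthogonal to all the short roots -/
theorem NRS.exists_short21 {Φ : Finset E} (h : NRS Φ) {b : E} (hb : b ∈ Φ) : ∃ g ∈ Psi Φ, inner ℝ b g ≠ (0 : ℝ) := by
  classical
  by_contra hcon
  push Not at hcon
  obtain ⟨g₀, hg₀, hg₀2⟩ := h.ex_two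
  have hg₀' : g₀ ∈ Psi Φ := mem_Psi.2 ⟨hg₀, hg₀2⟩
  have h1 : Φ.filter (fun a => ∀ g ∈ Psi Φ, inner ℝ a g = (0 : ℝ)) = Φ := by
    apply h.irr _ (Finset.filter_subset _ _) ⟨b, Finset.mem_filter.2 ⟨hb, hcon⟩⟩
    intro a ha c hc hcn
    rw [Finset.mem_filter] at ha hcn
    have h2 : ∃ g ∈ Psi Φ, inner ℝ c g ≠ (0 : ℝ) := by
      by_contra h3
      push Not at h3
      exact hcn ⟨hc, h3⟩
    obtain ⟨g, hg, hcg⟩ := h2
    have h3 := ha.2 _ (h.Psi_refl21 hg hc)
    rw [inner_sub_right, ha.2 g hg, real_inner_smul_right, zero_sub, neg_eq_zero] at h3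
    rcases mul_eq_zero.1 h3 with h4 | h4
    · exfalso
      apply hcg
      have h5 := co_mul_self21 (h.ne_zero c hc) g
      rw [h4, zero_mul] at h5
      rw [real_inner_comm]
      linarith
    · exact h4
  have h2 : g₀ ∈ Φ.filter (fun a => ∀ g ∈ Psi Φ, inner ℝ a g = (0 : ℝ)) := by rw [h1]; exact hg₀
  have h3 := (Finset.mem_filter.1 h2).2 g₀ hg₀'
  rw [hg₀2] at h3
  norm_num at h3

/-- a long root is the sum of two short roots -/
theorem NRS.long_sum21 {Φ : Finset E} (h : NRS Φ) {b : E} (hb : b ∈ Φ) (hbn : b ∉ Psi Φ) :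
    ∃ g ∈ Psi Φ, ∃ d ∈ Psi Φ, b = g + d ∧
      (inner ℝ g d = (0 : ℝ) ∧ inner ℝ b b = (4 : ℝ) ∨ inner ℝ g d = (1 : ℝ) ∧ inner ℝ b b = (6 : ℝ)) := by
  have key : ∀ g ∈ Psi Φ, 0 < inner ℝ b g → ∃ g ∈ Psi Φ, ∃ d ∈ Psi Φ, b = g + d ∧
      (inner ℝ g d = (0 : ℝ) ∧ inner ℝ b b = (4 : ℝ) ∨ inner ℝ g d = (1 : ℝ) ∧ inner ℝ b b = (6 : ℝ)) := by
    intro g hg hpos
    have g2 := (mem_Psi.1 hg).2
    obtain ⟨k, hk⟩ := h.int_short21 hg hb
    obtain ⟨l, hl⟩ := h.int b hb g (mem_Psi.1 hg).1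
    have hb2 : 2 < inner ℝ b b := by
      rcases (h.two_le b hb).lt_or_eq with h1 | h1
      · exact h1
      · exact absurd (mem_Psi.2 ⟨hb, h1.symm⟩) hbn
    have hlb : (l : ℝ) * inner ℝ b b = 2 * k := by
      have := co_mul_self21 (h.ne_zero b hb) g
      rwa [hl, real_inner_comm b g, hk] at this
    rw [hk] at hpos
    have hl0 : (0 : ℝ) < l := by
      by_contra h1
      push Not at h1
      nlinarith
    have hk0 : 0 < k := by exact_mod_cast hpos
    have hl0' : 0 < l := by exact_mod_cast hl0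
    -- Cauchy-Schwarz, strict
    have hcs : (k : ℝ) * k < 2 * inner ℝ b b := by
      have h1 : b - ((k : ℝ) / 2) • g ≠ 0 := by
        intro h2
        have h3 : b = ((k : ℝ) / 2) • g := sub_eq_zero.1 h2
        rcases h.red g (mem_Psi.1 hg).1 ((k : ℝ) / 2) (by rw [← h3]; exact hb) with h4 | h4
        · rw [h4, one_smul] at h3
          rw [h3] at hbn
          exact hbn hg
        · rw [h4, neg_one_smul] at h3
          rw [h3] at hbn
          exact hbn (h.neg_Psi hg)
      have h2 := real_inner_self_pos.2 h1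
      rw [inner_sub_left, inner_sub_right, inner_sub_right, real_inner_smul_left, real_inner_smul_left,
        real_inner_smul_right, real_inner_smul_right, real_inner_comm b g, g2, hk] at h2
      nlinarith
    have hl1 : l = 1 := by
      by_contra h1
      have h2 : 2 ≤ l := by omega
      have h3 : (2 : ℝ) ≤ l := by exact_mod_cast h2
      -- k = l (b,b) / 2 > l; k * l < 4
      have h4 : (k : ℝ) * l < 4 := by
        by_contra h5
        push Not at h5
        nlinarith
      nlinarith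
    rw [hl1] at hlb hl
    have hbb : inner ℝ b b = 2 * (k : ℝ) := by
      push_cast at hlb
      linarith
    have hk4 : k < 4 := by
      have h1 : (k : ℝ) < 4 := by
        by_contra h5
        push Not at h5
        nlinarith
      exact_mod_cast h1
    have hk1 : 1 < k := by
      have h1 : (1 : ℝ) < k := by linarith
      exact_mod_cast h1
    have hd : b - g ∈ Psi Φ := by
      have h1 := h.Psi_refl21 hg hb
      rw [hl] at h1
      have h2 := h.neg_Psi h1
      have h3 : -(g - ((1 : ℤ) : ℝ) • b) = b - g := by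
        push_cast
        rw [one_smul]
        abel
      rwa [h3] at h2
    refine ⟨g, hg, b - g, hd, by abel, ?_⟩
    have h5 : inner ℝ g (b - g) = (k : ℝ) - 2 := by
      rw [inner_sub_right, g2, real_inner_comm b g, hk]
    rw [h5, hbb]
    have h6 : k = 2 ∨ k = 3 := by omega
    rcases h6 with rfl | rfl
    · left; norm_num
    · right; norm_num
  obtain ⟨g, hg, hbg⟩ := h.exists_short21 hb
  rcases lt_or_gt_of_ne hbg with h1 | h1
  · refine key (-g) (h.neg_Psi hg) ?_
    rw [inner_neg_right]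
    linarith
  · exact key g hg h1

theorem NRS.closure_eq21 {Φ : Finset E} (h : NRS Φ) :
    AddSubgroup.closure (Φ : Set E) = AddSubgroup.closure (Psi Φ : Set E) := by
  apply le_antisymm
  · rw [AddSubgroup.closure_le]
    intro b hb
    by_cases hbn : b ∈ Psi Φ
    · exact AddSubgroup.subset_closure hbn
    · obtain ⟨g, hg, d, hd, rfl, _⟩ := h.long_sum21 hb hbn
      exact AddSubgroup.add_mem _ (AddSubgroup.subset_closure hg) (AddSubgroup.subset_closure hd)
  · apply AddSubgroup.closure_mono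
    intro b hb
    exact (mem_Psi.1 hb).1

/-- the square length of an element of the root lattice is even -/
theorem NRS.even21 {Φ : Finset E} (h : NRS Φ) {x : E} (hx : x ∈ AddSubgroup.closure (Φ : Set E)) :
    (∃ k : ℤ, inner ℝ x x = 2 * (k : ℝ)) ∧ ∀ g ∈ Psi Φ, ∃ k : ℤ, inner ℝ x g = (k : ℝ) := by
  rw [h.closure_eq21] at hx
  induction hx using AddSubgroup.closure_induction with
  | mem g hg =>
    refine ⟨⟨1, ?_⟩, fun d hd => h.int_short21 hd (mem_Psi.1 hg).1⟩
    rw [(mem_Psi.1 hg).2]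
    norm_num
  | zero =>
    refine ⟨⟨0, by simp⟩, fun d _ => ⟨0, by simp⟩⟩
  | add x y hx hy ihx ihy =>
    obtain ⟨⟨k, hk⟩, hk2⟩ := ihx
    obtain ⟨⟨l, hl⟩, hl2⟩ := ihy
    have hxy : ∃ j : ℤ, inner ℝ x y = (j : ℝ) := by
      clear hk hl hl2 hx
      induction hy using AddSubgroup.closure_induction with
      | mem g hg => exact hk2 g hg
      | zero => exact ⟨0, by simp⟩
      | add y z _ _ ihy ihz =>
        obtain ⟨a, ha⟩ := ihy
        obtain ⟨b, hb⟩ := ihz
        exact ⟨a + b, by rw [inner_add_right, ha, hb]; push_cast; rfl⟩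
      | neg y _ ihy =>
        obtain ⟨a, ha⟩ := ihy
        exact ⟨-a, by rw [inner_neg_right, ha]; push_cast; rfl⟩
    obtain ⟨j, hj⟩ := hxy
    refine ⟨⟨k + l + j, ?_⟩, fun d hd => ?_⟩
    · rw [inner_add_left, inner_add_right, inner_add_right, real_inner_comm x y, hk, hl, hj]
      push_cast
      ring
    · obtain ⟨a, ha⟩ := hk2 d hd
      obtain ⟨b, hb⟩ := hl2 d hd
      exact ⟨a + b, by rw [inner_add_left, ha, hb]; push_cast; rfl⟩
  | neg x _ ihx =>
    obtain ⟨⟨k, hk⟩, hk2⟩ := ihx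
    refine ⟨⟨k, by rw [inner_neg_neg, hk]⟩, fun d hd => ?_⟩
    obtain ⟨a, ha⟩ := hk2 d hd
    exact ⟨-a, by rw [inner_neg_left, ha]; push_cast; rfl⟩

/-! saturated sets -/

theorem Sat.int_short21 {Φ X : Finset E} (hX : Sat Φ X) {g x : E} (hg : g ∈ Psi Φ) (hx : x ∈ X) :
    ∃ k : ℤ, inner ℝ x g = (k : ℝ) := by
  obtain ⟨k, hk⟩ := hX.int g (mem_Psi.1 hg).1 x hx
  exact ⟨k, by rw [← co_short21 hg, hk]⟩

theorem Sat.str_short21 {Φ X : Finset E} (hX : Sat Φ X) {g x : E} (hg : g ∈ Psi Φ) (hx : x ∈ X) {j : ℕ}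
    (hj : (j : ℝ) ≤ inner ℝ x g) : x - (j : ℝ) • g ∈ X :=
  hX.str g (mem_Psi.1 hg).1 x hx j (by rw [co_short21 hg]; exact hj)

theorem Sat.refl21 {Φ X : Finset E} (h : RS Φ) (hX : Sat Φ X) {a x : E} (ha : a ∈ Φ) (hx : x ∈ X) :
    x - co a x • a ∈ X := by
  obtain ⟨k, hk⟩ := hX.int a ha x hx
  rcases le_or_gt 0 k with h1 | h1
  · obtain ⟨j, rfl⟩ := Int.eq_ofNat_of_zero_le h1
    have h2 := hX.str a ha x hx j (by rw [hk]; push_cast; exact le_refl _)
    rw [hk]
    exact_mod_cast h2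
  · obtain ⟨j, hj⟩ := Int.eq_ofNat_of_zero_le (a := -k) (by omega)
    have h3 : (j : ℝ) = -(k : ℝ) := by
      have : ((j : ℤ) : ℝ) = ((-k : ℤ) : ℝ) := by rw [← hj]
      push_cast at this
      exact this
    have h2 := hX.str (-a) (h.neg_mem ha) x hx j (by rw [co_neg_left, hk, h3])
    rw [hk]
    rw [h3, smul_neg, neg_smul, neg_neg] at h2
    exact h2

/-- a weight is not orthogonal to all the short roots, unless it is zero -/
theorem Sat.exists_short21 {Φ X : Finset E} (h : NRS Φ) (hX : Sat Φ X) {x : E} (hx : x ∈ X) (hx0 : x ≠ 0) :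
    ∃ g ∈ Psi Φ, inner ℝ x g ≠ (0 : ℝ) := by
  by_contra hcon
  push Not at hcon
  have h1 := hX.coset x hx (-x) (hX.neg x hx)
  rw [h.closure_eq21] at h1
  have h2 : ∀ y ∈ AddSubgroup.closure (Psi Φ : Set E), inner ℝ x y = (0 : ℝ) := by
    intro y hy
    induction hy using AddSubgroup.closure_induction with
    | mem g hg => exact hcon g hg
    | zero => simp
    | add y z _ _ ihy ihz => rw [inner_add_right, ihy, ihz, add_zero]
    | neg y _ ihy => rw [inner_neg_right, ihy, neg_zero]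
  have h3 := h2 _ h1
  rw [sub_neg_eq_add, inner_add_right] at h3
  have h4 := real_inner_self_pos.2 hx0
  linarith

end PF
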