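import Pool.Agent.Helper21.PF.E9b
import Pool.Agent.Helper3.PF.Qs

/-!
Project PF (MP_b8862a_ag), (E8): the elements of minimal norm of `X` form an orthonormal frame.
-/

open Module

namespace PF

variable {E : Type*} [NormedAddCommGroup E] [InnerProductSpace ℝ E] {Φ X : Finset E}

open Classical in
/-- the elements of norm one -/
noncomputable def M21 (X : Finset E) : Finset E := X.filter fun x => inner ℝ x x = (1 : ℝ)

theorem mem_M21 {x : E} : x ∈ M21 X ↔ x ∈ X ∧ inner ℝ x x = (1 : ℝ) := by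
  unfold M21
  rw [Finset.mem_filter]

theorem M_neg21 (hX : Sat Φ X) {x : E} (hx : x ∈ M21 X) : -x ∈ M21 X := by
  rw [mem_M21] at hx ⊢
  exact ⟨hX.neg x hx.1, by rw [inner_neg_neg]; exact hx.2⟩

theorem M_short21 (hX : Sat Φ X) {x g : E} (hg : g ∈ Psi Φ) (hx : x ∈ M21 X) :
    inner ℝ x g = (1 : ℝ) ∨ inner ℝ x g = (0 : ℝ) ∨ inner ℝ x g = (-1 : ℝ) := by
  obtain ⟨k, hk⟩ := hX.int_short21 hg (mem_M21.1 hx).1
  have x1 := (mem_M21.1 hx).2
  have g2 := (mem_Psi.1 hg).2
  have h1 : 0 ≤ inner ℝ (x - g) (x - g) := real_inner_self_nonneg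
  have h2 : 0 ≤ inner ℝ (x + g) (x + g) := real_inner_self_nonneg
  rw [inner_sub_left, inner_sub_right, inner_sub_right, real_inner_comm x g, x1, g2, hk] at h1
  rw [inner_add_left, inner_add_right, inner_add_right, real_inner_comm x g, x1, g2, hk] at h2
  have h3 : (k : ℝ) < 2 := by linarith
  have h4 : (-2 : ℝ) < k := by linarith
  have h5 : k < 2 := by exact_mod_cast h3
  have h6 : -2 < k := by exact_mod_cast h4
  rw [hk]
  have h7 : k = 1 ∨ k = 0 ∨ k = -1 := by omega
  rcases h7 with rfl | rfl | rfl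
  · left; norm_num
  · right; left; norm_num
  · right; right; norm_num

theorem M_sub21 (hX : Sat Φ X) {x g : E} (hg : g ∈ Psi Φ) (hx : x ∈ M21 X) (h1 : inner ℝ x g = (1 : ℝ)) :
    x - g ∈ M21 X := by
  rw [mem_M21] at hx ⊢
  constructor
  · have h2 := hX.str_short21 hg hx.1 (j := 1) (by rw [h1]; norm_num)
    rwa [Nat.cast_one, one_smul] at h2
  · rw [inner_sub_left, inner_sub_right, inner_sub_right, real_inner_comm x g, hx.2, (mem_Psi.1 hg).2, h1]
    norm_num

theorem M_cases21 (h : NRS Φ) (hX : Sat Φ X) {x y : E} (hx : x ∈ M21 X) (hy : y ∈ M21 X) :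
    y = x ∨ y = -x ∨ inner ℝ x y = (0 : ℝ) := by
  have x1 := (mem_M21.1 hx).2
  have y1 := (mem_M21.1 hy).2
  obtain ⟨k, hk⟩ := (h.even21 (hX.coset x (mem_M21.1 hx).1 y (mem_M21.1 hy).1)).1
  by_cases e1 : y = x
  · exact Or.inl e1
  by_cases e2 : y = -x
  · exact Or.inr (Or.inl e2)
  right; right
  have h1 : 0 < inner ℝ (x - y) (x - y) := real_inner_self_pos.2 (sub_ne_zero.2 fun h => e1 h.symm)
  have h2 : 0 < inner ℝ (x + y) (x + y) :=
    real_inner_self_pos.2 fun h => e2 (eq_neg_of_add_eq_zero_right h)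
  rw [hk] at h1
  rw [inner_sub_left, inner_sub_right, inner_sub_right, real_inner_comm x y, x1, y1] at hk
  rw [inner_add_left, inner_add_right, inner_add_right, real_inner_comm x y, x1, y1] at h2
  have h3 : (0 : ℝ) < k := by linarith
  have h4 : (k : ℝ) < 2 := by linarith
  have h5 : 0 < k := by exact_mod_cast h3
  have h6 : k < 2 := by exact_mod_cast h4
  have h7 : k = 1 := by omega
  rw [h7] at hk
  push_cast at hk
  linarith

theorem M_refl21 (h : NRS Φ) (hX : Sat Φ X) {x a : E} (ha : a ∈ Φ) (hx : x ∈ M21 X) :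
    x - co a x • a ∈ M21 X := by
  rw [mem_M21] at hx ⊢
  exact ⟨Sat.refl21 h.toRS hX ha hx.1, by rw [inner_refl21 (h.ne_zero a ha)]; exact hx.2⟩

/-- no root is orthogonal to all the elements of norm one -/
theorem M_touch21 (h : NRS Φ) (hX : Sat Φ X) (hne : (M21 X).Nonempty) {b : E} (hb : b ∈ Φ) :
    ∃ x ∈ M21 X, inner ℝ b x ≠ (0 : ℝ) := by
  classical
  by_contra hcon
  push Not at hcon
  have h1 : Φ.filter (fun c => ∀ x ∈ M21 X, inner ℝ c x = (0 : ℝ)) = Φ := by
    apply h.irr _ (Finset.filter_subset _ _) ⟨b, Finset.mem_filter.2 ⟨hb, hcon⟩⟩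
    intro c hc d hd hdn
    rw [Finset.mem_filter] at hc hdn
    have h2 : ∃ x ∈ M21 X, inner ℝ d x ≠ (0 : ℝ) := by
      by_contra h3
      push Not at h3
      exact hdn ⟨hd, h3⟩
    obtain ⟨x, hx, hdx⟩ := h2
    have h3 := hc.2 _ (M_refl21 h hX hd hx)
    rw [inner_sub_right, hc.2 x hx, real_inner_smul_right, zero_sub, neg_eq_zero] at h3
    rcases mul_eq_zero.1 h3 with h4 | h4
    · exfalso
      apply hdx
      have h5 := co_mul_self21 (h.ne_zero d hd) x
      rw [h4, zero_mul] at h5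
      rw [real_inner_comm]
      linarith
    · exact h4
  obtain ⟨x, hx⟩ := hne
  have hx0 : x ≠ 0 := by
    rintro rfl
    have := (mem_M21.1 hx).2
    rw [inner_zero_left] at this
    norm_num at this
  obtain ⟨g, hg, hxg⟩ := hX.exists_short21 h (mem_M21.1 hx).1 hx0
  have h2 : g ∈ Φ.filter (fun c => ∀ x ∈ M21 X, inner ℝ c x = (0 : ℝ)) := by
    rw [h1]
    exact (mem_Psi.1 hg).1
  have h3 := (Finset.mem_filter.1 h2).2 x hx
  rw [real_inner_comm] at h3
  exact hxg h3

theorem Psi_eq_sub21 (h : NRS Φ) (hX : Sat Φ X) (hne : (M21 X).Nonempty) {g : E} (hg : g ∈ Psi Φ) :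
    ∃ x ∈ M21 X, ∃ y ∈ M21 X, g = x - y ∧ inner ℝ x y = (0 : ℝ) := by
  have key : ∀ x ∈ M21 X, inner ℝ x g = (1 : ℝ) → ∃ x ∈ M21 X, ∃ y ∈ M21 X, g = x - y ∧ inner ℝ x y = (0 : ℝ) := by
    intro x hx h1
    refine ⟨x, hx, x - g, M_sub21 hX hg hx h1, by abel, ?_⟩
    rw [inner_sub_right, (mem_M21.1 hx).2, h1, sub_self]
  obtain ⟨x, hx, hgx⟩ := M_touch21 h hX hne (mem_Psi.1 hg).1
  rw [real_inner_comm] at hgx
  rcases M_short21 hX hg hx with h1 | h1 | h1
  · exact key x hx h1
  · exact absurd h1 hgx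
  · exact key (-x) (M_neg21 hX hx) (by rw [inner_neg_left, h1, neg_neg])

theorem M_orth21 {x y : E} (hx : x ∈ M21 X) (hy : y ∈ M21 X) (hxy : x - y ∈ Psi Φ) :
    inner ℝ x y = (0 : ℝ) := by
  have h1 := (mem_Psi.1 hxy).2
  rw [inner_sub_left, inner_sub_right, inner_sub_right, real_inner_comm x y, (mem_M21.1 hx).2,
    (mem_M21.1 hy).2] at h1
  linarith

theorem M_flip21 (h : NRS Φ)
    (hM : ∀ x ∈ X, inner ℝ x x = (1 : ℝ) → ∃ a ∈ Psi Φ, ∃ b ∈ Psi Φ, inner ℝ a b = (0 : ℝ) ∧ x + x = a + b)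
    {x y : E} (hx : x ∈ M21 X) (hy : y ∈ M21 X) (hxy : x - y ∈ Psi Φ) : x + y ∈ Psi Φ := by
  obtain ⟨a, ha, b, hb, hab, hxx⟩ := hM x (mem_M21.1 hx).1 (mem_M21.1 hx).2
  have hxy0 := M_orth21 hx hy hxy
  have e0 : x + y = a + b - (x - y) := by rw [← hxx]; abel
  have hc : (inner ℝ (x - y) a : ℝ) + inner ℝ (x - y) b = 2 := by
    rw [← inner_add_right, ← hxx, inner_add_right, inner_sub_left, real_inner_comm x y, hxy0,
      (mem_M21.1 hx).2]
    norm_num
  by_cases h1 : x - y = a
  · rw [e0, h1]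
    have : a + b - a = b := by abel
    rwa [this]
  by_cases h2 : x - y = b
  · rw [e0, h2]
    have : a + b - b = a := by abel
    rwa [this]
  have le1 : ∀ c ∈ Psi Φ, x - y ≠ c → inner ℝ (x - y) c ≤ (1 : ℝ) := by
    intro c hc hne
    rcases h.short_short21 hc hxy with h3 | h3 | h3 | h3 | h3
    · exact absurd h3 hne
    · rw [h3, inner_neg_left, (mem_Psi.1 hc).2]; norm_num
    · rw [h3]
    · rw [h3]; norm_num
    · rw [h3]; norm_num
  have h3 := le1 a ha h1
  have h4 := le1 b hb h2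
  have h5 : inner ℝ (x - y) a = (1 : ℝ) := by linarith
  have h6 : inner ℝ (x - y) b = (1 : ℝ) := by linarith
  have h7 : a - (x - y) ∈ Psi Φ := h.sub_Psi ha hxy (by rw [real_inner_comm]; exact h5)
  have h8 : a - (x - y) + b ∈ Psi Φ := h.add_Psi h7 hb (by rw [inner_sub_left, hab, h6]; norm_num)
  have h9 : x + y = a - (x - y) + b := by rw [e0]; abel
  rw [h9]
  exact h8

/-- all differences of non proportional elements of the frame are roots -/
theorem M_conn21 (h : NRS Φ) (hX : Sat Φ X)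
    (hM : ∀ x ∈ X, inner ℝ x x = (1 : ℝ) → ∃ a ∈ Psi Φ, ∃ b ∈ Psi Φ, inner ℝ a b = (0 : ℝ) ∧ x + x = a + b)
    {x y : E} (hx : x ∈ M21 X) (hy : y ∈ M21 X) : y = x ∨ y = -x ∨ x - y ∈ Psi Φ := by
  classical
  have hne : (M21 X).Nonempty := ⟨x, hx⟩
  have hnz : ∀ z ∈ M21 X, z ≠ 0 := by
    rintro z hz rfl
    have := (mem_M21.1 hz).2
    rw [inner_zero_left] at this
    norm_num at this
  set R : E → E → Prop := fun x y => y = x ∨ y = -x ∨ x - y ∈ Psi Φ with hR
  have hRneg : ∀ a ∈ M21 X, ∀ b ∈ M21 X, R a b → R a (-b) := by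
    intro a ha b hb hab
    rcases hab with h1 | h1 | h1
    · right; left; rw [h1]
    · left; rw [h1, neg_neg]
    · right; right
      have := M_flip21 h hM ha hb h1
      rwa [sub_neg_eq_add]
  have hRsymm : ∀ a b, R a b → R b a := by
    intro a b hab
    rcases hab with h1 | h1 | h1
    · left; exact h1.symm
    · right; left; rw [h1, neg_neg]
    · right; right
      have := h.neg_Psi h1
      rwa [neg_sub] at this
  have hRtrans : ∀ a ∈ M21 X, ∀ b ∈ M21 X, ∀ c ∈ M21 X, R a b → R b c → R a c := by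
    intro a ha b hb c hc hab hbc
    rcases hab with h1 | h1 | h1
    · rw [h1] at hbc; exact hbc
    · rw [h1] at hbc
      have h2 := hRneg _ hc _ (M_neg21 hX ha) (hRsymm _ _ hbc)
      rw [neg_neg] at h2
      exact hRsymm _ _ h2
    · rcases hbc with h2 | h2 | h2
      · rw [h2]; exact Or.inr (Or.inr h1)
      · rw [h2]; exact hRneg a ha b hb (Or.inr (Or.inr h1))
      · rcases M_cases21 h hX ha hc with h3 | h3 | h3
        · exact Or.inl h3
        · exact Or.inr (Or.inl h3)
        · right; right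
          have h4 := M_orth21 ha hb h1
          have h5 := M_orth21 hb hc h2
          have h6 := h.add_Psi h1 h2 (by
            rw [inner_sub_left, inner_sub_right, inner_sub_right, h4, h5, h3, (mem_M21.1 hb).2]
            norm_num)
          have h7 : a - b + (b - c) = a - c := by abel
          rwa [h7] at h6
  have hstep : ∀ a ∈ Φ, ∀ z ∈ M21 X, inner ℝ a z ≠ (0 : ℝ) → R z (z - co a z • a) := by
    intro a ha z hz haz
    have hz' := M_refl21 h hX ha hz
    have hco := co_mul_self21 (h.ne_zero a ha) z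
    rcases M_cases21 h hX hz hz' with h1 | h1 | h1
    · exact Or.inl h1
    · exact Or.inr (Or.inl h1)
    · right; right
      have e1 : z - (z - co a z • a) = co a z • a := by abel
      have hgen : ∀ z' ∈ M21 X, inner ℝ z z' = (0 : ℝ) → inner ℝ (z - z') (z - z') = (2 : ℝ) := by
        intro z' hz' h1
        rw [inner_sub_left, inner_sub_right, inner_sub_right, real_inner_comm z z', (mem_M21.1 hz).2,
          (mem_M21.1 hz').2, h1]
        norm_num
      have hn : inner ℝ (co a z • a) (co a z • a) = (2 : ℝ) := by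
        have := hgen _ hz' h1
        rwa [e1] at this
      rw [real_inner_smul_left, real_inner_smul_right] at hn
      obtain ⟨k, hk⟩ := hX.int a ha z (mem_M21.1 hz).1
      have ha2 := h.two_le a ha
      have hk0 : k ≠ 0 := by
        rintro rfl
        rw [hk] at hco
        apply haz
        rw [real_inner_comm]
        push_cast at hco
        linarith
      have hk1 : k = 1 ∨ k = -1 := by
        rw [hk] at hn
        have h2 : (k : ℝ) * k ≤ 1 := by
          by_contra h3
          push Not at h3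
          nlinarith
        have h3 : k * k ≤ 1 := by exact_mod_cast h2
        have h4 : k ≤ 1 := by nlinarith
        have h5 : -1 ≤ k := by nlinarith
        omega
      rw [e1, hk]
      rw [hk] at hn
      rcases hk1 with rfl | rfl
      · push_cast at hn ⊢
        rw [one_smul]
        exact mem_Psi.2 ⟨ha, by linarith⟩
      · push_cast at hn ⊢
        rw [neg_one_smul]
        exact h.neg_Psi (mem_Psi.2 ⟨ha, by linarith⟩)
  -- the roots that touch the class of `x`
  have h1 : Φ.filter (fun b => ∃ z ∈ M21 X, R x z ∧ inner ℝ b z ≠ (0 : ℝ)) = Φ := by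
    apply h.irr _ (Finset.filter_subset _ _)
    · obtain ⟨g, hg, hxg⟩ := hX.exists_short21 h (mem_M21.1 hx).1 (hnz x hx)
      refine ⟨g, Finset.mem_filter.2 ⟨(mem_Psi.1 hg).1, x, hx, Or.inl rfl, ?_⟩⟩
      rw [real_inner_comm]
      exact hxg
    · intro a ha c hc hcn
      rw [Finset.mem_filter] at ha hcn
      obtain ⟨ha1, z, hz, hxz, haz⟩ := ha
      have hcz : ∀ w ∈ M21 X, R x w → inner ℝ c w = (0 : ℝ) := by
        intro w hw hxw
        by_contra h2
        exact hcn ⟨hc, w, hw, hxw, h2⟩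
      have hz' := M_refl21 h hX ha1 hz
      have h2 := hcz _ hz' (hRtrans x hx z hz _ hz' hxz (hstep a ha1 z hz haz))
      rw [inner_sub_right, hcz z hz hxz, real_inner_smul_right, zero_sub, neg_eq_zero] at h2
      rcases mul_eq_zero.1 h2 with h4 | h4
      · exfalso
        apply haz
        have h5 := co_mul_self21 (h.ne_zero a ha1) z
        rw [h4, zero_mul] at h5
        rw [real_inner_comm]
        linarith
      · rw [real_inner_comm]; exact h4
  obtain ⟨g, hg, hyg⟩ := hX.exists_short21 h (mem_M21.1 hy).1 (hnz y hy)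
  have key : ∀ g ∈ Psi Φ, inner ℝ y g = (1 : ℝ) → R x y := by
    intro g hg hyg
    have hz := M_sub21 hX hg hy hyg
    set z := y - g with hzdef
    have hyz : R y z := by
      right; right
      have : y - z = g := by rw [hzdef]; abel
      rwa [this]
    have h2 : g ∈ Φ.filter (fun b => ∃ z ∈ M21 X, R x z ∧ inner ℝ b z ≠ (0 : ℝ)) := by
      rw [h1]
      exact (mem_Psi.1 hg).1
    obtain ⟨_, w, hw, hxw, hgw⟩ := Finset.mem_filter.1 h2
    have hg' : g = y - z := by rw [hzdef]; abel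
    have hc : ∀ v ∈ M21 X, inner ℝ v w ≠ (0 : ℝ) → R x v := by
      intro v hv hvw
      rcases M_cases21 h hX hv hw with h3 | h3 | h3
      · rwa [h3] at hxw
      · rw [h3] at hxw
        have := hRneg x hx _ (M_neg21 hX hv) hxw
        rwa [neg_neg] at this
      · exact absurd h3 hvw
    by_cases hyw : inner ℝ y w = (0 : ℝ)
    · have hzw : inner ℝ z w ≠ (0 : ℝ) := by
        intro hzw
        apply hgw
        rw [hg', inner_sub_left, hyw, hzw, sub_zero]
      exact hRtrans x hx z hz y hy (hc z hz hzw) (hRsymm _ _ hyz)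
    · exact hc y hy hyw
  rcases M_short21 hX hg hy with h2 | h2 | h2
  · exact key g hg h2
  · exact absurd h2 hyg
  · exact key (-g) (h.neg_Psi hg) (by rw [inner_neg_right, h2, neg_neg])

end PF
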