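import Pool.Agent.Helper21.PF.E8

/-!
Project PF (MP_b8862a_ag), (E8): the frame case, classification and counting.
-/

open Module

namespace PF

variable {E : Type*} [NormedAddCommGroup E] [InnerProductSpace ℝ E] {Φ X : Finset E}

theorem M_ne21 {x y : E} (hx : x ∈ M21 X) (hy : y ∈ M21 X) (hxy : inner ℝ x y = (0 : ℝ)) : y ≠ x ∧ y ≠ -x := by
  have x1 := (mem_M21.1 hx).2
  constructor
  · rintro rfl
    rw [x1] at hxy
    norm_num at hxy
  · rintro rfl
    rw [inner_neg_right, x1] at hxy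
    norm_num at hxy

theorem M_diff21 (h : NRS Φ) (hX : Sat Φ X)
    (hM : ∀ x ∈ X, inner ℝ x x = (1 : ℝ) → ∃ a ∈ Psi Φ, ∃ b ∈ Psi Φ, inner ℝ a b = (0 : ℝ) ∧ x + x = a + b)
    {x y : E} (hx : x ∈ M21 X) (hy : y ∈ M21 X) (hxy : inner ℝ x y = (0 : ℝ)) : x - y ∈ Psi Φ := by
  obtain ⟨h1, h2⟩ := M_ne21 hx hy hxy
  rcases M_conn21 h hX hM hx hy with h3 | h3 | h3
  · exact absurd h3 h1
  · exact absurd h3 h2
  · exact h3

theorem M_add21 (h : NRS Φ) (hX : Sat Φ X)
    (hM : ∀ x ∈ X, inner ℝ x x = (1 : ℝ) → ∃ a ∈ Psi Φ, ∃ b ∈ Psi Φ, inner ℝ a b = (0 : ℝ) ∧ x + x = a + b)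
    {x y : E} (hx : x ∈ M21 X) (hy : y ∈ M21 X) (hxy : inner ℝ x y = (0 : ℝ)) : x + y ∈ Psi Φ :=
  M_flip21 h hM hx hy (M_diff21 h hX hM hx hy hxy)

/-- half of the frame -/
theorem exists_frame21 (h : NRS Φ) (hX : Sat Φ X) :
    ∃ T ⊆ M21 X, (∀ x ∈ T, ∀ y ∈ T, y ≠ x → inner ℝ x y = (0 : ℝ)) ∧ (∀ x ∈ M21 X, x ∈ T ∨ -x ∈ T) ∧
      (M21 X).card = 2 * T.card := by
  classical
  obtain ⟨T, hT, hmax⟩ := Finset.exists_max_image ((M21 X).powerset.filter fun T => ∀ g ∈ T, -g ∉ T)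
    Finset.card ⟨∅, by simp⟩
  rw [Finset.mem_filter, Finset.mem_powerset] at hT
  have hne : ∀ g ∈ M21 X, g ≠ -g := by
    intro g hg h1
    have h2 : inner ℝ g g = inner ℝ g (-g) := by rw [← h1]
    rw [inner_neg_right, (mem_M21.1 hg).2] at h2
    norm_num at h2
  have hcov : ∀ g ∈ M21 X, g ∈ T ∨ -g ∈ T := by
    intro g hg
    by_contra hcon
    push Not at hcon
    have h1 : insert g T ∈ (M21 X).powerset.filter fun T => ∀ g ∈ T, -g ∉ T := by
      rw [Finset.mem_filter, Finset.mem_powerset]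
      refine ⟨Finset.insert_subset hg hT.1, ?_⟩
      intro g' hg' hn
      rcases Finset.mem_insert.1 hg' with rfl | h2
      · rcases Finset.mem_insert.1 hn with h3 | h3
        · exact hne _ hg h3.symm
        · exact hcon.2 h3
      · rcases Finset.mem_insert.1 hn with h3 | h3
        · have h4 : -g = g' := by rw [← h3, neg_neg]
          rw [h4] at hcon
          exact hcon.2 h2
        · exact hT.2 g' h2 h3
    have h2 := hmax _ h1
    rw [Finset.card_insert_of_notMem hcon.1] at h2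
    omega
  refine ⟨T, hT.1, ?_, hcov, ?_⟩
  · intro x hx y hy hyx
    rcases M_cases21 h hX (hT.1 hx) (hT.1 hy) with h1 | h1 | h1
    · exact absurd h1 hyx
    · rw [h1] at hy
      exact absurd hy (hT.2 x hx)
    · exact h1
  · have h1 : M21 X = T ∪ T.image (fun g => -g) := by
      ext g
      rw [Finset.mem_union, Finset.mem_image]
      constructor
      · intro hg
        rcases hcov g hg with h1 | h1
        · exact Or.inl h1
        · exact Or.inr ⟨-g, h1, neg_neg g⟩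
      · rintro (h1 | ⟨g', h1, rfl⟩)
        · exact hT.1 h1
        · exact M_neg21 hX (hT.1 h1)
    have h2 : Disjoint T (T.image (fun g => -g)) := by
      rw [Finset.disjoint_left]
      intro g hg hg'
      obtain ⟨g', h1, h3⟩ := Finset.mem_image.1 hg'
      have h4 : -g = g' := by rw [← h3, neg_neg]
      rw [← h4] at h1
      exact hT.2 g hg h1
    have h3 : (M21 X).card = T.card + (T.image (fun g => -g)).card := by
      rw [← Finset.card_union_of_disjoint h2, ← h1]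
    rw [h3, Finset.card_image_of_injective T neg_injective]
    omega

/-- expansion in the frame -/
theorem expand21 (h : NRS Φ) (hX : Sat Φ X) (hne : (M21 X).Nonempty) {T : Finset E} (hT : T ⊆ M21 X)
    (hort : ∀ x ∈ T, ∀ y ∈ T, y ≠ x → inner ℝ x y = (0 : ℝ)) (hcov : ∀ x ∈ M21 X, x ∈ T ∨ -x ∈ T)
    {v : E} (hv : v ∈ X) : ∑ x ∈ T, (inner ℝ v x : ℝ) • x = v := by
  classical
  have hT1 : ∀ y ∈ T, ∑ x ∈ T, (inner ℝ y x : ℝ) • x = y := by
    intro y hy
    rw [Finset.sum_eq_single y]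
    · rw [(mem_M21.1 (hT hy)).2, one_smul]
    · intro x hx hxy
      rw [hort y hy x hx hxy, zero_smul]
    · intro hn
      exact absurd hy hn
  have hneg : ∀ y : E, ∑ x ∈ T, (inner ℝ y x : ℝ) • x = y → ∑ x ∈ T, (inner ℝ (-y) x : ℝ) • x = -y := by
    intro y hy
    have : ∑ x ∈ T, (inner ℝ (-y) x : ℝ) • x = -∑ x ∈ T, (inner ℝ y x : ℝ) • x := by
      rw [← Finset.sum_neg_distrib]
      refine Finset.sum_congr rfl fun x _ => ?_
      rw [inner_neg_left, neg_smul]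
    rw [this, hy]
  have hadd : ∀ y z : E, ∑ x ∈ T, (inner ℝ y x : ℝ) • x = y → ∑ x ∈ T, (inner ℝ z x : ℝ) • x = z →
      ∑ x ∈ T, (inner ℝ (y + z) x : ℝ) • x = y + z := by
    intro y z hy hz
    have : ∑ x ∈ T, (inner ℝ (y + z) x : ℝ) • x =
        ∑ x ∈ T, (inner ℝ y x : ℝ) • x + ∑ x ∈ T, (inner ℝ z x : ℝ) • x := by
      rw [← Finset.sum_add_distrib]
      refine Finset.sum_congr rfl fun x _ => ?_
      rw [inner_add_left, add_smul]
    rw [this, hy, hz]
  have hM1 : ∀ y ∈ M21 X, ∑ x ∈ T, (inner ℝ y x : ℝ) • x = y := by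
    intro y hy
    rcases hcov y hy with h1 | h1
    · exact hT1 y h1
    · have := hneg _ (hT1 _ h1)
      rwa [neg_neg] at this
  obtain ⟨x₀, hx₀⟩ := hne
  have h1 := hX.coset v hv x₀ (mem_M21.1 hx₀).1
  rw [h.closure_eq21] at h1
  have h2 : ∀ y ∈ AddSubgroup.closure (Psi Φ : Set E), ∑ x ∈ T, (inner ℝ y x : ℝ) • x = y := by
    intro y hy
    induction hy using AddSubgroup.closure_induction with
    | mem g hg =>
      obtain ⟨a, ha, b, hb, hab, _⟩ := Psi_eq_sub21 h hX ⟨x₀, hx₀⟩ hg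
      rw [hab, sub_eq_add_neg]
      exact hadd _ _ (hM1 a ha) (hneg _ (hM1 b hb))
    | zero => simp
    | add y z _ _ ihy ihz => exact hadd _ _ ihy ihz
    | neg y _ ihy => exact hneg _ ihy
  have h3 := hadd _ _ (h2 _ h1) (hM1 x₀ hx₀)
  rwa [sub_add_cancel] at h3

/-- the coordinates are integers -/
theorem coord_int21 (h : NRS Φ) (hX : Sat Φ X) {v x : E} (hv : v ∈ X) (hx : x ∈ M21 X) :
    ∃ k : ℤ, inner ℝ v x = (k : ℝ) := by
  have hne : (M21 X).Nonempty := ⟨x, hx⟩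
  have h1 := hX.coset v hv x (mem_M21.1 hx).1
  rw [h.closure_eq21] at h1
  have h2 : ∀ y ∈ AddSubgroup.closure (Psi Φ : Set E), ∃ k : ℤ, inner ℝ y x = (k : ℝ) := by
    intro y hy
    induction hy using AddSubgroup.closure_induction with
    | mem g hg =>
      rcases M_short21 hX hg hx with h3 | h3 | h3
      · exact ⟨1, by rw [real_inner_comm, h3]; norm_num⟩
      · exact ⟨0, by rw [real_inner_comm, h3]; norm_num⟩
      · exact ⟨-1, by rw [real_inner_comm, h3]; norm_num⟩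
    | zero => exact ⟨0, by simp⟩
    | add y z _ _ ihy ihz =>
      obtain ⟨k, hk⟩ := ihy
      obtain ⟨l, hl⟩ := ihz
      exact ⟨k + l, by rw [inner_add_left, hk, hl]; push_cast; rfl⟩
    | neg y _ ihy =>
      obtain ⟨k, hk⟩ := ihy
      exact ⟨-k, by rw [inner_neg_left, hk]; push_cast; rfl⟩
  obtain ⟨k, hk⟩ := h2 _ h1
  rw [inner_sub_left, (mem_M21.1 hx).2] at hk
  exact ⟨k + 1, by push_cast; linarith⟩

/-- three pairwise orthogonal elements of the frame -/
theorem exists_three21 (h : NRS Φ) (hX : Sat Φ X) (hne : (M21 X).Nonempty) {g : E} (hg : g ∈ Psi Φ)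
    (hu : (Nb Φ g).Nonempty) : ∃ a ∈ M21 X, ∃ b ∈ M21 X, ∃ c ∈ M21 X,
      inner ℝ a b = (0 : ℝ) ∧ inner ℝ a c = (0 : ℝ) ∧ inner ℝ b c = (0 : ℝ) := by
  obtain ⟨x, hx, y, hy, rfl, hxy⟩ := Psi_eq_sub21 h hX hne hg
  obtain ⟨d, hd⟩ := hu
  rw [mem_Nb] at hd
  obtain ⟨hd, hdg⟩ := hd
  rw [inner_sub_right, real_inner_comm x d, real_inner_comm y d] at hdg
  have hyx : inner ℝ y x = (0 : ℝ) := by rw [real_inner_comm]; exact hxy
  rcases M_short21 hX hd hx with h1 | h1 | h1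
  · -- `(x, d) = 1`, `(y, d) = 0`
    have h2 : inner ℝ y d = (0 : ℝ) := by linarith
    refine ⟨x, hx, y, hy, x - d, M_sub21 hX hd hx h1, hxy, ?_, ?_⟩
    · rw [inner_sub_right, (mem_M21.1 hx).2, h1, sub_self]
    · rw [inner_sub_right, hyx, h2, sub_self]
  · have h2 : inner ℝ y d = (-1 : ℝ) := by linarith
    have h3 : y - -d ∈ M21 X := M_sub21 hX (h.neg_Psi hd) hy (by rw [inner_neg_right, h2, neg_neg])
    refine ⟨x, hx, y, hy, y - -d, h3, hxy, ?_, ?_⟩
    · rw [inner_sub_right, inner_neg_right, hxy, h1]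
      norm_num
    · rw [inner_sub_right, inner_neg_right, (mem_M21.1 hy).2, h2]
      norm_num
  · rcases M_short21 hX hd hy with h2 | h2 | h2 <;> rw [h1, h2] at hdg <;> norm_num at hdg

/-- an element of the frame is orthogonal to two orthogonal elements -/
theorem exists_two21 (h : NRS Φ) (hX : Sat Φ X) {g : E} (hg : g ∈ Psi Φ)
    (hu : (Nb Φ g).Nonempty) {x : E} (hx : x ∈ M21 X) : ∃ b ∈ M21 X, ∃ c ∈ M21 X,
      inner ℝ x b = (0 : ℝ) ∧ inner ℝ x c = (0 : ℝ) ∧ inner ℝ b c = (0 : ℝ) := by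
  obtain ⟨a, ha, b, hb, c, hc, hab, hac, hbc⟩ := exists_three21 h hX ⟨x, hx⟩ hg hu
  rcases M_cases21 h hX hx ha with h1 | h1 | h1
  · rw [h1] at hab hac
    exact ⟨b, hb, c, hc, hab, hac, hbc⟩
  · rw [h1, inner_neg_left] at hab hac
    exact ⟨b, hb, c, hc, by linarith, by linarith, hbc⟩
  · rcases M_cases21 h hX hx hb with h2 | h2 | h2
    · rw [h2] at hbc
      exact ⟨a, ha, c, hc, h1, hbc, hac⟩
    · rw [h2, inner_neg_left] at hbc
      exact ⟨a, ha, c, hc, h1, by linarith, hac⟩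
    · exact ⟨a, ha, b, hb, h1, h2, hab⟩

section min

variable (h : NRS Φ) (hX : Sat Φ X)
  (hM : ∀ x ∈ X, inner ℝ x x = (1 : ℝ) → ∃ a ∈ Psi Φ, ∃ b ∈ Psi Φ, inner ℝ a b = (0 : ℝ) ∧ x + x = a + b)
  {g₀ : E} (hg₀ : g₀ ∈ Psi Φ) (hu : (Nb Φ g₀).Nonempty)
  {v : E} (hv : v ∈ X) (hvM : v ∉ M21 X) (hmin : ∀ w ∈ X, w ∉ M21 X → (inner ℝ v v : ℝ) ≤ inner ℝ w w)

include h hX hM hg₀ hu hv hmin

theorem coord_lt21 {x : E} (hx : x ∈ M21 X) : inner ℝ v x < (2 : ℝ) := by
  by_contra hcon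
  push Not at hcon
  have key : ∀ y ∈ M21 X, inner ℝ x y = (0 : ℝ) → (0 : ℝ) ≤ inner ℝ v y → v = x + (x + y) := by
    intro y hy hxy hvy
    have hg := M_add21 h hX hM hx hy hxy
    have h1 : (2 : ℝ) ≤ inner ℝ v (x + y) := by rw [inner_add_right]; linarith
    have h2 := hX.str_short21 hg hv (j := 1) (by rw [Nat.cast_one]; linarith)
    rw [Nat.cast_one, one_smul] at h2
    have h3 : v - (x + y) ∈ M21 X := by
      by_contra h4
      have h5 := hmin _ h2 h4
      rw [inner_sub_left, inner_sub_right v, inner_sub_right (x + y), real_inner_comm v (x + y),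
        (mem_Psi.1 hg).2] at h5
      linarith
    have h4 : (1 : ℝ) ≤ inner ℝ (v - (x + y)) x := by
      rw [inner_sub_left, inner_add_left, (mem_M21.1 hx).2, real_inner_comm x y, hxy]
      linarith
    rcases M_cases21 h hX hx h3 with h5 | h5 | h5
    · exact sub_eq_iff_eq_add.1 h5
    · rw [h5, inner_neg_left, (mem_M21.1 hx).2] at h4
      norm_num at h4
    · rw [real_inner_comm, h5] at h4
      norm_num at h4
  obtain ⟨b, hb, c, hc, hxb, hxc, hbc⟩ := exists_two21 h hX hg₀ hu hx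
  have hsign : ∀ b ∈ M21 X, inner ℝ x b = (0 : ℝ) → ∃ b' ∈ M21 X, (b' = b ∨ b' = -b) ∧ v = x + (x + b') := by
    intro b hb hxb
    rcases le_total (0 : ℝ) (inner ℝ v b) with h1 | h1
    · exact ⟨b, hb, Or.inl rfl, key b hb hxb h1⟩
    · exact ⟨-b, M_neg21 hX hb, Or.inr rfl, key (-b) (M_neg21 hX hb) (by rw [inner_neg_right, hxb, neg_zero])
        (by rw [inner_neg_right]; linarith)⟩
  obtain ⟨b', hb', hb2, hb3⟩ := hsign b hb hxb
  obtain ⟨c', hc', hc2, hc3⟩ := hsign c hc hxc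
  have h1 : b' = c' := by
    rw [hb3] at hc3
    exact add_left_cancel (add_left_cancel hc3)
  have h2 : inner ℝ b' c' = (0 : ℝ) := by
    rcases hb2 with rfl | rfl <;> rcases hc2 with rfl | rfl <;>
      simp only [inner_neg_left, inner_neg_right, hbc, neg_zero]
  rw [← h1, (mem_M21.1 hb').2] at h2
  norm_num at h2

theorem coord_cases21 {x : E} (hx : x ∈ M21 X) :
    inner ℝ v x = (1 : ℝ) ∨ inner ℝ v x = (0 : ℝ) ∨ inner ℝ v x = (-1 : ℝ) := by
  obtain ⟨k, hk⟩ := coord_int21 h hX hv hx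
  have h1 := coord_lt21 h hX hM hg₀ hu hv hmin hx
  have h2 := coord_lt21 h hX hM hg₀ hu hv hmin (M_neg21 hX hx)
  rw [inner_neg_right] at h2
  rw [hk] at h1 h2 ⊢
  have h3 : k < 2 := by exact_mod_cast h1
  have h4 : (-2 : ℝ) < k := by linarith
  have h5 : -2 < k := by exact_mod_cast h4
  have h6 : k = 1 ∨ k = 0 ∨ k = -1 := by omega
  rcases h6 with rfl | rfl | rfl
  · left; norm_num
  · right; left; norm_num
  · right; right; norm_num

/-- a minimal element outside the frame is a sum of three orthogonal elements of the frame -/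
theorem three_sum21 (hvM : v ∉ M21 X) (hne : (M21 X).Nonempty) : ∃ a ∈ M21 X, ∃ b ∈ M21 X, ∃ c ∈ M21 X,
    inner ℝ a b = (0 : ℝ) ∧ inner ℝ a c = (0 : ℝ) ∧ inner ℝ b c = (0 : ℝ) ∧ v = a + b + c := by
  classical
  obtain ⟨T, hT, hort, hcov, hcard⟩ := exists_frame21 h hX
  have hexp := expand21 h hX hne hT hort hcov hv
  have hcases : ∀ x ∈ T, inner ℝ v x = (1 : ℝ) ∨ inner ℝ v x = (0 : ℝ) ∨ inner ℝ v x = (-1 : ℝ) :=
    fun x hx => coord_cases21 h hX hM hg₀ hu hv hmin (hT hx)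
  set T' := T.filter (fun x => inner ℝ v x ≠ (0 : ℝ)) with hT'
  have hexp' : ∑ x ∈ T', (inner ℝ v x : ℝ) • x = v := by
    rw [hT', Finset.sum_filter]
    conv_rhs => rw [← hexp]
    refine Finset.sum_congr rfl fun x _ => ?_
    by_cases hx : inner ℝ v x = (0 : ℝ)
    · rw [if_neg (by simpa using hx), hx, zero_smul]
    · rw [if_pos hx]
  have hsgn : ∀ x ∈ T', (inner ℝ v x : ℝ) • x ∈ M21 X ∧ inner ℝ v ((inner ℝ v x : ℝ) • x) = (1 : ℝ) := by
    intro x hx
    obtain ⟨hx1, hx2⟩ := Finset.mem_filter.1 hx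
    rcases hcases x hx1 with h1 | h1 | h1
    · rw [h1, one_smul]
      exact ⟨hT hx1, h1⟩
    · exact absurd h1 hx2
    · rw [h1, neg_one_smul]
      exact ⟨M_neg21 hX (hT hx1), by rw [inner_neg_right, h1, neg_neg]⟩
  have hnorm : (inner ℝ v v : ℝ) = T'.card := by
    have h1 : (inner ℝ v v : ℝ) = ∑ x ∈ T', (1 : ℝ) := by
      conv_lhs => rw [← hexp', inner_sum, hexp']
      refine Finset.sum_congr rfl fun x hx => ?_
      exact (hsgn x hx).2
    rw [h1, Finset.sum_const, nsmul_eq_mul, mul_one]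
  have horth' : ∀ x ∈ T', ∀ y ∈ T', y ≠ x →
      inner ℝ ((inner ℝ v x : ℝ) • x) ((inner ℝ v y : ℝ) • y) = (0 : ℝ) := by
    intro x hx y hy hyx
    rw [real_inner_smul_left, real_inner_smul_right, hort x (Finset.mem_filter.1 hx).1 y
      (Finset.mem_filter.1 hy).1 hyx, mul_zero, mul_zero]
  -- at most three nonzero coordinates
  have hle : T'.card ≤ 3 := by
    by_contra hcon
    push Not at hcon
    obtain ⟨x, hx, y, hy, hxy⟩ := Finset.one_lt_card.1 (by omega : 1 < T'.card)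
    obtain ⟨hx1, hx2⟩ := hsgn x hx
    obtain ⟨hy1, hy2⟩ := hsgn y hy
    have hg := M_add21 h hX hM hx1 hy1 (horth' x hx y hy (fun h => hxy h.symm))
    set g := (inner ℝ v x : ℝ) • x + (inner ℝ v y : ℝ) • y with hgdef
    have hvg : inner ℝ v g = (2 : ℝ) := by
      rw [hgdef, inner_add_right, hx2, hy2]
      norm_num
    have h2 := hX.str_short21 hg hv (j := 1) (by rw [Nat.cast_one, hvg]; norm_num)
    rw [Nat.cast_one, one_smul] at h2
    have h3 : (inner ℝ (v - g) (v - g) : ℝ) = T'.card - 2 := by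
      rw [inner_sub_left, inner_sub_right, inner_sub_right, real_inner_comm v g, hvg, (mem_Psi.1 hg).2, hnorm]
      ring
    have h4 : (4 : ℝ) ≤ T'.card := by exact_mod_cast hcon
    have h5 : v - g ∉ M21 X := by
      intro h6
      rw [(mem_M21.1 h6).2] at h3
      linarith
    have h6 := hmin _ h2 h5
    rw [h3, hnorm] at h6
    linarith
  -- parity
  obtain ⟨x₀, hx₀⟩ := hne
  obtain ⟨k, hk⟩ := (h.even21 (hX.coset v hv x₀ (mem_M21.1 hx₀).1)).1
  obtain ⟨l, hl⟩ := coord_int21 h hX hv hx₀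
  rw [inner_sub_left, inner_sub_right, inner_sub_right, real_inner_comm v x₀, hl, hnorm,
    (mem_M21.1 hx₀).2] at hk
  have hodd : (T'.card : ℤ) + 1 = 2 * (k + l) := by
    have : (T'.card : ℝ) + 1 = 2 * ((k : ℝ) + l) := by linarith
    exact_mod_cast this
  have hne1 : T'.card ≠ 1 := by
    intro h1
    apply hvM
    rw [mem_M21]
    exact ⟨hv, by rw [hnorm, h1]; norm_num⟩
  have h3 : T'.card = 3 := by omega
  obtain ⟨a, b, c, hab, hac, hbc, hTe⟩ := Finset.card_eq_three.1 h3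
  have ha : a ∈ T' := by rw [hTe]; simp
  have hb : b ∈ T' := by rw [hTe]; simp
  have hc : c ∈ T' := by rw [hTe]; simp
  refine ⟨_, (hsgn a ha).1, _, (hsgn b hb).1, _, (hsgn c hc).1, horth' a ha b hb hab.symm,
    horth' a ha c hc hac.symm, horth' b hb c hc hbc.symm, ?_⟩
  conv_lhs => rw [← hexp', hTe]
  rw [Finset.sum_insert (by simp [hab, hac]), Finset.sum_insert (by simp [hbc]), Finset.sum_singleton, add_assoc]

end min

end PF
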