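import Pool.Agent.Helper21.PF.Bas

/-!
Project PF (MP_b8862a_ag), (E9): the short roots are pairwise orthogonal or opposite and `0` is not in `X`.
-/

open Module

namespace PF

variable {E : Type*} [NormedAddCommGroup E] [InnerProductSpace ℝ E]

/-- it suffices to consider short roots -/
theorem short_wlog21 {Φ : Finset E} (h : NRS Φ) {a lam : E} (ha : a ∈ Φ) {p : ℝ} (hp : 0 ≤ p)
    (hle : p ≤ co a lam + qs Φ a) : ∃ g ∈ Psi Φ, p ≤ co g lam + qs Φ g := by
  by_cases han : a ∈ Psi Φ
  · exact ⟨a, han, hle⟩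
  obtain ⟨g, hg, d, hd, hgd, hN⟩ := h.long_sum21 ha han
  have key : ∃ c : ℝ, 0 < c ∧ c ≤ 1 / 2 ∧ ∀ x, co a x = c * (co g x + co d x) := by
    rcases hN with ⟨_, hN⟩ | ⟨_, hN⟩
    · refine ⟨1 / 2, by norm_num, le_refl _, fun x => ?_⟩
      rw [co_short21 hg, co_short21 hd]
      unfold co
      rw [hN, hgd, inner_add_right]
      ring
    · refine ⟨1 / 3, by norm_num, by norm_num, fun x => ?_⟩
      rw [co_short21 hg, co_short21 hd]
      unfold co
      rw [hN, hgd, inner_add_right]
      ring
  obtain ⟨c, hc0, hc2, hc⟩ := key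
  have h1 : qs Φ a ≤ c * (qs Φ g + qs Φ d) := by
    unfold qs
    have h2 : ∑ y ∈ Φ, |co a y| ≤ ∑ y ∈ Φ, c * (|co g y| + |co d y|) := by
      refine Finset.sum_le_sum fun y _ => ?_
      rw [hc, abs_mul, abs_of_pos hc0]
      exact mul_le_mul_of_nonneg_left (abs_add_le _ _) hc0.le
    rw [← Finset.mul_sum, Finset.sum_add_distrib] at h2
    linarith
  by_contra hcon
  push Not at hcon
  have h3 := hcon g hg
  have h4 := hcon d hd
  rw [hc] at hle
  nlinarith

theorem short_cases21 {Φ : Finset E} (h : NRS Φ) (hu : ∀ g ∈ Psi Φ, Nb Φ g = ∅) {g d : E} (hg : g ∈ Psi Φ)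
    (hd : d ∈ Psi Φ) : d = g ∨ d = -g ∨ inner ℝ d g = (0 : ℝ) := by
  rcases h.short_short21 hg hd with h1 | h1 | h1 | h1 | h1
  · exact Or.inl h1
  · exact Or.inr (Or.inl h1)
  · exfalso
    have h2 : d ∈ Nb Φ g := mem_Nb.2 ⟨hd, h1⟩
    rw [hu g hg] at h2
    exact Finset.notMem_empty _ h2
  · exact Or.inr (Or.inr h1)
  · exfalso
    have h2 : -d ∈ Nb Φ g := mem_Nb.2 ⟨h.neg_Psi hd, by rw [inner_neg_left, h1, neg_neg]⟩
    rw [hu g hg] at h2
    exact Finset.notMem_empty _ h2

theorem long_cases21 {Φ : Finset E} (h : NRS Φ) (hu : ∀ g ∈ Psi Φ, Nb Φ g = ∅) {b : E} (hb : b ∈ Φ)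
    (hbn : b ∉ Psi Φ) : ∃ g ∈ Psi Φ, ∃ d ∈ Psi Φ, b = g + d ∧ inner ℝ g d = (0 : ℝ) := by
  obtain ⟨g, hg, d, hd, hgd, hN⟩ := h.long_sum21 hb hbn
  refine ⟨g, hg, d, hd, hgd, ?_⟩
  rcases hN with ⟨h1, _⟩ | ⟨h1, _⟩
  · exact h1
  · exfalso
    have h2 : g ∈ Nb Φ d := mem_Nb.2 ⟨hg, h1⟩
    rw [hu d hd] at h2
    exact Finset.notMem_empty _ h2

/-- reflection in a short root of a long root -/
theorem sub_of_add21 {Φ : Finset E} (h : NRS Φ) {g d : E} (hd : d ∈ Psi Φ) (hgd : inner ℝ g d = (0 : ℝ))
    (h1 : g + d ∈ Φ) : g - d ∈ Φ := by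
  have h2 := h.refl d (mem_Psi.1 hd).1 (g + d) h1
  rw [co_short21 hd, inner_add_left, hgd, (mem_Psi.1 hd).2, zero_add] at h2
  have h3 : g + d - (2 : ℝ) • d = g - d := by
    rw [two_smul]
    abel
  rwa [h3] at h2

/-- all differences of non proportional short roots are roots -/
theorem all_conn21 {Φ : Finset E} (h : NRS Φ) (hu : ∀ g ∈ Psi Φ, Nb Φ g = ∅) {a g : E} (ha : a ∈ Psi Φ)
    (hg : g ∈ Psi Φ) : g = a ∨ g = -a ∨ a - g ∈ Φ := by
  classical
  -- the relation
  set C : E → Prop := fun g => g = a ∨ g = -a ∨ a - g ∈ Φ with hC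
  have hneg : ∀ g ∈ Psi Φ, C g → C (-g) := by
    intro g hg h1
    rcases h1 with h1 | h1 | h1
    · right; left; rw [h1]
    · left; rw [h1, neg_neg]
    · rcases short_cases21 h hu ha hg with h2 | h2 | h2
      · right; left; rw [h2]
      · left; rw [h2, neg_neg]
      · right; right
        have h3 := sub_of_add21 h (h.neg_Psi hg) (g := a) (by rw [inner_neg_right, real_inner_comm, h2, neg_zero])
          (by rwa [← sub_eq_add_neg])
        exact h3
  have hstep : ∀ g ∈ Psi Φ, ∀ d ∈ Psi Φ, C d → inner ℝ g d = (0 : ℝ) → g + d ∈ Φ → C g := by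
    intro g hg d hd hCd hgd hs
    have hs' := sub_of_add21 h hd hgd hs
    rcases hCd with h1 | h1 | h1
    · right; right
      rw [← h1]
      have := h.toRS.neg_mem hs'
      rwa [neg_sub] at this
    · right; right
      have h2 := h.toRS.neg_mem hs
      rw [h1] at h2
      have h3 : -(g + -a) = a - g := by abel
      rwa [h3] at h2
    · -- a - d, d - g
      rcases short_cases21 h hu ha hg with h2 | h2 | h2
      · exact Or.inl h2
      · exact Or.inr (Or.inl h2)
      · by_cases had : inner ℝ a d = (0 : ℝ)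
        · right; right
          have h5 : inner ℝ (a - d) (a - d) = (4 : ℝ) := by
            rw [inner_sub_left, inner_sub_right, inner_sub_right, real_inner_comm a d, had,
              (mem_Psi.1 ha).2, (mem_Psi.1 hd).2]
            norm_num
          have h6 : inner ℝ (d - g) (a - d) = (-2 : ℝ) := by
            rw [inner_sub_left, inner_sub_right, inner_sub_right, real_inner_comm a d, had, h2, hgd,
              (mem_Psi.1 hd).2]
            norm_num
          have h7 : co (a - d) (d - g) = -1 := by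
            unfold co
            rw [h5, h6]
            norm_num
          have h8 : d - g ∈ Φ := by
            have := h.toRS.neg_mem hs'
            rwa [neg_sub] at this
          have h9 := h.refl _ h1 _ h8
          rw [h7, neg_one_smul, sub_neg_eq_add] at h9
          have h10 : d - g + (a - d) = a - g := by abel
          rwa [h10] at h9
        · rcases short_cases21 h hu hd ha with h3 | h3 | h3
          · right; right
            rw [h3]
            have := h.toRS.neg_mem hs'
            rwa [neg_sub] at this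
          · right; right
            rw [h3]
            have h4 := h.toRS.neg_mem hs
            have h5 : -(g + d) = -d - g := by abel
            rwa [h5] at h4
          · exact absurd h3 had
  have h1 : Φ.filter (fun b => ∀ g ∈ Psi Φ, ¬ C g → inner ℝ b g = (0 : ℝ)) = Φ := by
    apply h.irr _ (Finset.filter_subset _ _)
    · refine ⟨a, Finset.mem_filter.2 ⟨(mem_Psi.1 ha).1, ?_⟩⟩
      intro g hg hCg
      rcases short_cases21 h hu hg ha with h2 | h2 | h2
      · exact absurd (Or.inl h2.symm) hCg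
      · exact absurd (Or.inr (Or.inl (by rw [h2, neg_neg]))) hCg
      · exact h2
    · intro b hb c hc hcn
      rw [Finset.mem_filter] at hb hcn
      have h2 : ∃ g ∈ Psi Φ, ¬ C g ∧ inner ℝ c g ≠ (0 : ℝ) := by
        by_contra h3
        push Not at h3
        exact hcn ⟨hc, h3⟩
      obtain ⟨g, hg, hCg, hcg⟩ := h2
      by_cases hcs : c ∈ Psi Φ
      · rcases short_cases21 h hu hg hcs with h4 | h4 | h4
        · rw [h4]
          exact hb.2 g hg hCg
        · rw [h4, inner_neg_right, hb.2 g hg hCg, neg_zero]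
        · exact absurd h4 hcg
      · obtain ⟨x, hx, y, hy, rfl, hxy⟩ := long_cases21 h hu hc hcs
        have hnx : ¬ C x → ¬ C y := by
          intro hx1 hy1
          exact hx1 (hstep x hx y hy hy1 hxy hc)
        have hny : ¬ C y → ¬ C x := by
          intro hy1 hx1
          exact hy1 (hstep y hy x hx hx1 (by rw [real_inner_comm]; exact hxy) (by rwa [add_comm]))
        have hne : ∀ z ∈ Psi Φ, inner ℝ z g ≠ (0 : ℝ) → ¬ C z := by
          intro z hz hzg hCz
          rcases short_cases21 h hu hg hz with h4 | h4 | h4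
          · rw [h4] at hCz
            exact hCg hCz
          · rw [h4] at hCz
            have := hneg _ (h.neg_Psi hg) hCz
            rw [neg_neg] at this
            exact hCg this
          · exact hzg h4
        have hboth : ¬ C x ∧ ¬ C y := by
          by_cases hxg : inner ℝ x g = (0 : ℝ)
          · have hyg : inner ℝ y g ≠ (0 : ℝ) := by
              intro hyg
              apply hcg
              rw [inner_add_left, hxg, hyg, add_zero]
            have h5 := hne y hy hyg
            exact ⟨hny h5, h5⟩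
          · have h5 := hne x hx hxg
            exact ⟨h5, hnx h5⟩
        rw [inner_add_right, hb.2 x hx hboth.1, hb.2 y hy hboth.2, add_zero]
  by_contra hCg
  have h2 : g ∈ Φ.filter (fun b => ∀ g ∈ Psi Φ, ¬ C g → inner ℝ b g = (0 : ℝ)) := by
    rw [h1]
    exact (mem_Psi.1 hg).1
  have h3 := (Finset.mem_filter.1 h2).2 g hg hCg
  rw [(mem_Psi.1 hg).2] at h3
  norm_num at h3

theorem qs_le_u021 {Φ : Finset E} (h : NRS Φ) (hu : ∀ g ∈ Psi Φ, Nb Φ g = ∅) {a : E} (ha : a ∈ Psi Φ) :
    qs Φ a ≤ (Psi Φ).card - 1 := by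
  classical
  have a2 := (mem_Psi.1 ha).2
  have hna : a ≠ -a := by
    intro h1
    have h2 : inner ℝ a a = inner ℝ a (-a) := by rw [← h1]
    rw [inner_neg_right, a2] at h2
    norm_num at h2
  set D := ((Psi Φ).erase a).erase (-a) with hD
  have hDc : D.card = (Psi Φ).card - 2 := by
    rw [hD, Finset.card_erase_of_mem, Finset.card_erase_of_mem ha]
    · omega
    · exact Finset.mem_erase.2 ⟨hna.symm, h.neg_Psi ha⟩
  have hP2 : 2 ≤ (Psi Φ).card := by
    have h1 : ({a, -a} : Finset E) ⊆ Psi Φ := by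
      intro x hx
      rcases Finset.mem_insert.1 hx with rfl | hx
      · exact ha
      · rw [Finset.mem_singleton.1 hx]
        exact h.neg_Psi ha
    have h2 := Finset.card_le_card h1
    rwa [Finset.card_pair hna] at h2
  set L : Finset E := {a, -a} ∪ (D.image (fun d => a + d) ∪ D.image (fun d => -a + d)) with hL
  have hLc : (L.card : ℝ) ≤ 2 * (Psi Φ).card - 2 := by
    have h1 : L.card ≤ 2 + ((Psi Φ).card - 2 + ((Psi Φ).card - 2)) := by
      refine (Finset.card_union_le _ _).trans (add_le_add Finset.card_le_two ?_)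
      refine (Finset.card_union_le _ _).trans (add_le_add ?_ ?_)
      · exact Finset.card_image_le.trans hDc.le
      · exact Finset.card_image_le.trans hDc.le
    have h2 : L.card + 2 ≤ 2 * (Psi Φ).card := by omega
    have h3 : (L.card : ℝ) + 2 ≤ 2 * (Psi Φ).card := by exact_mod_cast h2
    linarith
  have hsub : Φ.filter (fun b => inner ℝ b a ≠ (0 : ℝ)) ⊆ L := by
    intro b hb
    rw [Finset.mem_filter] at hb
    obtain ⟨hb, hba⟩ := hb
    by_cases hbs : b ∈ Psi Φ
    · rcases short_cases21 h hu ha hbs with h1 | h1 | h1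
      · rw [hL]; simp [h1]
      · rw [hL]; simp [h1]
      · exact absurd h1 hba
    · obtain ⟨x, hx, y, hy, rfl, hxy⟩ := long_cases21 h hu hb hbs
      have hD' : ∀ x ∈ Psi Φ, ∀ y ∈ Psi Φ, inner ℝ x y = (0 : ℝ) → inner ℝ x a ≠ (0 : ℝ) → x + y ∈ L := by
        intro x hx y hy hxy hxa
        have hy1 : y ≠ a := by
          rintro rfl
          exact hxa hxy
        have hy2 : y ≠ -a := by
          rintro rfl
          rw [inner_neg_right, neg_eq_zero] at hxy
          exact hxa hxy
        have hyD : y ∈ D := Finset.mem_erase.2 ⟨hy2, Finset.mem_erase.2 ⟨hy1, hy⟩⟩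
        rcases short_cases21 h hu ha hx with h1 | h1 | h1
        · rw [hL, h1]
          exact Finset.mem_union_right _ (Finset.mem_union_left _ (Finset.mem_image.2 ⟨y, hyD, rfl⟩))
        · rw [hL, h1]
          exact Finset.mem_union_right _ (Finset.mem_union_right _ (Finset.mem_image.2 ⟨y, hyD, rfl⟩))
        · exact absurd h1 hxa
      by_cases hxa : inner ℝ x a = (0 : ℝ)
      · have hya : inner ℝ y a ≠ (0 : ℝ) := by
          intro hya
          apply hba
          rw [inner_add_left, hxa, hya, add_zero]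
        rw [add_comm]
        exact hD' y hy x hx (by rw [real_inner_comm]; exact hxy) hya
      · exact hD' x hx y hy hxy hxa
  have hle2 : ∀ b ∈ Φ, |co a b| ≤ 2 := by
    intro b hb
    rw [co_short21 ha]
    by_cases hbs : b ∈ Psi Φ
    · rcases short_cases21 h hu ha hbs with h1 | h1 | h1
      · rw [h1, a2]; norm_num
      · rw [h1, inner_neg_left, a2]; norm_num
      · rw [h1]; norm_num
    · obtain ⟨x, hx, y, hy, rfl, hxy⟩ := long_cases21 h hu hb hbs
      rw [inner_add_left]
      rcases short_cases21 h hu ha hx with h1 | h1 | h1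
      · have h2 : inner ℝ y a = (0 : ℝ) := by rw [← h1, real_inner_comm]; exact hxy
        rw [h1, h2, a2]; norm_num
      · have h2 : inner ℝ y a = (0 : ℝ) := by
          have h3 : inner ℝ y (-a) = (0 : ℝ) := by rw [← h1, real_inner_comm]; exact hxy
          rw [inner_neg_right] at h3
          linarith
        rw [h1, h2, inner_neg_left, a2]; norm_num
      · rw [h1, zero_add]
        rcases short_cases21 h hu ha hy with h2 | h2 | h2
        · rw [h2, a2]; norm_num
        · rw [h2, inner_neg_left, a2]; norm_num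
        · rw [h2]; norm_num
  have hsum : ∑ b ∈ Φ, |co a b| ≤ 2 * (2 * (Psi Φ).card - 2) := by
    have h1 : ∑ b ∈ Φ, |co a b| = ∑ b ∈ Φ.filter (fun b => inner ℝ b a ≠ (0 : ℝ)), |co a b| := by
      rw [Finset.sum_filter]
      refine Finset.sum_congr rfl fun b _ => ?_
      by_cases hb : inner ℝ b a = (0 : ℝ)
      · rw [if_neg (by simp [hb]), co_short21 ha, hb, abs_zero]
      · rw [if_pos hb]
    rw [h1]
    have h2 : ∑ b ∈ Φ.filter (fun b => inner ℝ b a ≠ (0 : ℝ)), |co a b| ≤
        ∑ b ∈ Φ.filter (fun b => inner ℝ b a ≠ (0 : ℝ)), (2 : ℝ) :=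
      Finset.sum_le_sum fun b hb => hle2 b (Finset.mem_filter.1 hb).1
    rw [Finset.sum_const, nsmul_eq_mul] at h2
    have h3 : ((Φ.filter (fun b => inner ℝ b a ≠ (0 : ℝ))).card : ℝ) ≤ L.card := by
      exact_mod_cast Finset.card_le_card hsub
    linarith
  unfold qs
  linarith

/-- the pairings with the short roots are odd -/
theorem odd_of_u021 {Φ X : Finset E} (h : NRS Φ) (hX : Sat Φ X) (h0 : (0 : E) ∉ X)
    (hu : ∀ g ∈ Psi Φ, Nb Φ g = ∅) {x a : E} (hx : x ∈ X) (ha : a ∈ Psi Φ) :
    ∃ k : ℤ, inner ℝ x a = 2 * (k : ℝ) + 1 := by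
  obtain ⟨x₀, hx₀, hmin⟩ := Finset.exists_min_image X (fun x => inner ℝ x x) hX.nonempty
  have hx₀0 : x₀ ≠ 0 := fun h1 => h0 (h1 ▸ hx₀)
  have hsmall : ∀ g ∈ Psi Φ, ∀ k : ℤ, inner ℝ x₀ g = (k : ℝ) → k ≤ 1 := by
    intro g hg k hk
    by_contra h1
    push Not at h1
    have h2 : (2 : ℝ) ≤ k := by exact_mod_cast (by omega : (2 : ℤ) ≤ k)
    have h3 := hX.str_short21 hg hx₀ (j := 1) (by rw [hk]; push_cast; linarith)
    have h4 := hmin _ h3
    simp only [Nat.cast_one, one_smul] at h4
    rw [inner_sub_left, inner_sub_right, inner_sub_right, real_inner_comm x₀ g, (mem_Psi.1 hg).2, hk] at h4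
    linarith
  have hsmall2 : ∀ g ∈ Psi Φ, inner ℝ x₀ g = (1 : ℝ) ∨ inner ℝ x₀ g = (0 : ℝ) ∨ inner ℝ x₀ g = (-1 : ℝ) := by
    intro g hg
    obtain ⟨k, hk⟩ := hX.int_short21 hg hx₀
    have h1 := hsmall g hg k hk
    have h2 := hsmall (-g) (h.neg_Psi hg) (-k) (by rw [inner_neg_right, hk]; push_cast; rfl)
    have h3 : k = 1 ∨ k = 0 ∨ k = -1 := by omega
    rw [hk]
    rcases h3 with rfl | rfl | rfl
    · left; norm_num
    · right; left; norm_num
    · right; right; norm_num
  -- the pairing with one short root is odd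
  have hodd : ∀ g ∈ Psi Φ, inner ℝ x₀ g ≠ (0 : ℝ) := by
    intro g hg hz
    obtain ⟨d, hd, hxd⟩ := hX.exists_short21 h hx₀ hx₀0
    rcases all_conn21 h hu hg hd with h1 | h1 | h1
    · rw [h1] at hxd
      exact hxd hz
    · rw [h1, inner_neg_right, hz, neg_zero] at hxd
      exact hxd rfl
    · rcases short_cases21 h hu hg hd with h2 | h2 | h2
      · rw [h2] at hxd
        exact hxd hz
      · rw [h2, inner_neg_right, hz, neg_zero] at hxd
        exact hxd rfl
      · obtain ⟨k, hk⟩ := hX.int _ h1 x₀ hx₀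
        have h5 : inner ℝ (g - d) (g - d) = (4 : ℝ) := by
          rw [inner_sub_left, inner_sub_right, inner_sub_right, h2, real_inner_comm d g, h2,
            (mem_Psi.1 hg).2, (mem_Psi.1 hd).2]
          norm_num
        unfold co at hk
        rw [h5, inner_sub_right, hz] at hk
        have h6 : inner ℝ x₀ d = -(2 * (k : ℝ)) := by linarith
        rcases hsmall2 d hd with h7 | h7 | h7
        · rw [h7] at h6
          have h8 : (1 : ℤ) = -(2 * k) := by exact_mod_cast h6
          omega
        · exact hxd h7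
        · rw [h7] at h6
          have h8 : (-1 : ℤ) = -(2 * k) := by exact_mod_cast h6
          omega
  -- differences
  have hdiff : ∀ y ∈ AddSubgroup.closure (Psi Φ : Set E), ∃ k : ℤ, inner ℝ y a = 2 * (k : ℝ) := by
    intro y hy
    induction hy using AddSubgroup.closure_induction with
    | mem g hg =>
      rcases short_cases21 h hu ha hg with h1 | h1 | h1
      · exact ⟨1, by rw [h1, (mem_Psi.1 ha).2]; norm_num⟩
      · exact ⟨-1, by rw [h1, inner_neg_left, (mem_Psi.1 ha).2]; norm_num⟩
      · exact ⟨0, by rw [h1]; norm_num⟩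
    | zero => exact ⟨0, by simp⟩
    | add y z _ _ ihy ihz =>
      obtain ⟨k, hk⟩ := ihy
      obtain ⟨l, hl⟩ := ihz
      exact ⟨k + l, by rw [inner_add_left, hk, hl]; push_cast; ring⟩
    | neg y _ ihy =>
      obtain ⟨k, hk⟩ := ihy
      exact ⟨-k, by rw [inner_neg_left, hk]; push_cast; ring⟩
  have h1 := hX.coset x hx x₀ hx₀
  rw [h.closure_eq21] at h1
  obtain ⟨k, hk⟩ := hdiff _ h1
  rw [inner_sub_left] at hk
  rcases hsmall2 a ha with h2 | h2 | h2
  · exact ⟨k, by linarith⟩
  · exact absurd h2 (hodd a ha)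
  · exact ⟨k - 1, by push_cast; linarith⟩

end PF
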