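import Pool.Agent.Helper21.PF.E9

/-!
Project PF (MP_b8862a_ag), (E9), counting: if the short roots are pairwise orthogonal or opposite and `0` is not
in `X`, then `Φ` has rank one.
-/

open Module

namespace PF

variable {E : Type*} [NormedAddCommGroup E] [InnerProductSpace ℝ E]

theorem ne_neg_self21 {Φ : Finset E} {g : E} (hg : g ∈ Psi Φ) : g ≠ -g := by
  intro h1
  have h2 : inner ℝ g g = inner ℝ g (-g) := by rw [← h1]
  rw [inner_neg_right, (mem_Psi.1 hg).2] at h2
  norm_num at h2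

theorem exists_half21 (Φ : Finset E) :
    ∃ T ⊆ Psi Φ, (∀ g ∈ T, -g ∉ T) ∧ (Psi Φ).card ≤ 2 * T.card := by
  classical
  obtain ⟨T, hT, hmax⟩ := Finset.exists_max_image ((Psi Φ).powerset.filter fun T => ∀ g ∈ T, -g ∉ T)
    Finset.card ⟨∅, by simp⟩
  rw [Finset.mem_filter, Finset.mem_powerset] at hT
  refine ⟨T, hT.1, hT.2, ?_⟩
  have hcov : ∀ g ∈ Psi Φ, g ∈ T ∨ -g ∈ T := by
    intro g hg
    by_contra hcon
    push Not at hcon
    have h1 : insert g T ∈ (Psi Φ).powerset.filter fun T => ∀ g ∈ T, -g ∉ T := by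
      rw [Finset.mem_filter, Finset.mem_powerset]
      refine ⟨Finset.insert_subset hg hT.1, ?_⟩
      intro g' hg' hn
      rcases Finset.mem_insert.1 hg' with rfl | h2
      · rcases Finset.mem_insert.1 hn with h3 | h3
        · exact ne_neg_self21 hg h3.symm
        · exact hcon.2 h3
      · rcases Finset.mem_insert.1 hn with h3 | h3
        · have h4 : -g = g' := by rw [← h3, neg_neg]
          rw [h4] at hcon
          exact hcon.2 h2
        · exact hT.2 g' h2 h3
    have h2 := hmax _ h1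
    rw [Finset.card_insert_of_notMem hcon.1] at h2
    omega
  have hsub : Psi Φ ⊆ T ∪ T.image (fun g => -g) := by
    intro g hg
    rcases hcov g hg with h1 | h1
    · exact Finset.mem_union_left _ h1
    · exact Finset.mem_union_right _ (Finset.mem_image.2 ⟨-g, h1, neg_neg g⟩)
  have h1 := Finset.card_le_card hsub
  have h2 : (T ∪ T.image (fun g => -g)).card ≤ T.card + T.card :=
    (Finset.card_union_le _ _).trans (add_le_add le_rfl Finset.card_image_le)
  omega

theorem inner_flip21 {T U : Finset E} (hT : ∀ g ∈ T, ∀ d ∈ T, d ≠ g → inner ℝ d g = (0 : ℝ))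
    (hT2 : ∀ g ∈ T, inner ℝ g g = (2 : ℝ)) (hU : U ⊆ T) (x : E) {g : E} (hg : g ∈ T) [Decidable (g ∈ U)] :
    inner ℝ (x - ∑ d ∈ U, (inner ℝ x d : ℝ) • d) g = if g ∈ U then -(inner ℝ x g : ℝ) else inner ℝ x g := by
  rw [inner_sub_left, sum_inner]
  split_ifs with hgU
  · rw [Finset.sum_eq_single g]
    · rw [real_inner_smul_left, hT2 g hg]
      ring
    · intro d hd hdg
      rw [real_inner_smul_left, hT g hg d (hU hd) hdg, mul_zero]
    · intro hn
      exact absurd hgU hn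
  · rw [Finset.sum_eq_zero, sub_zero]
    intro d hd
    have hdg : d ≠ g := fun h1 => hgU (h1 ▸ hd)
    rw [real_inner_smul_left, hT g hg d (hU hd) hdg, mul_zero]

theorem two_pow_le21 {Φ X T : Finset E} (h : NRS Φ) (hX : Sat Φ X) (hT : T ⊆ Psi Φ)
    (hort : ∀ g ∈ T, ∀ d ∈ T, d ≠ g → inner ℝ d g = (0 : ℝ)) {x : E} (hx : x ∈ X)
    (hne : ∀ g ∈ T, inner ℝ x g ≠ (0 : ℝ)) : 2 ^ T.card ≤ X.card := by
  classical
  have hT2 : ∀ g ∈ T, inner ℝ g g = (2 : ℝ) := fun g hg => (mem_Psi.1 (hT hg)).2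
  rw [← Finset.card_powerset]
  refine Finset.card_le_card_of_injOn (fun U => x - ∑ d ∈ U, (inner ℝ x d : ℝ) • d) ?_ ?_
  · intro U hU
    rw [Finset.mem_coe, Finset.mem_powerset] at hU
    rw [Finset.mem_coe]
    simp only
    induction U using Finset.induction_on with
    | empty => simpa using hx
    | insert g U hgU ih =>
      have hU' : U ⊆ T := (Finset.subset_insert g U).trans hU
      have hg : g ∈ T := hU (Finset.mem_insert_self g U)
      have h1 := ih hU'
      have h2 := Sat.refl21 h.toRS hX (mem_Psi.1 (hT hg)).1 h1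
      rw [co_short21 (hT hg), inner_flip21 hort hT2 hU' x hg, if_neg hgU] at h2
      rw [Finset.sum_insert hgU]
      have h3 : x - ((inner ℝ x g : ℝ) • g + ∑ d ∈ U, (inner ℝ x d : ℝ) • d) =
          x - ∑ d ∈ U, (inner ℝ x d : ℝ) • d - (inner ℝ x g : ℝ) • g := by abel
      rw [h3]
      exact h2
  · intro U hU V hV hUV
    rw [Finset.mem_coe, Finset.mem_powerset] at hU hV
    simp only at hUV
    ext g
    by_cases hg : g ∈ T
    · have h1 := inner_flip21 hort hT2 hU x hg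
      have h2 := inner_flip21 hort hT2 hV x hg
      rw [hUV, h2] at h1
      have h3 := hne g hg
      constructor
      · intro hgU
        by_contra hgV
        rw [if_neg hgV, if_pos hgU] at h1
        apply h3
        linarith
      · intro hgV
        by_contra hgU
        rw [if_neg hgU, if_pos hgV] at h1
        apply h3
        linarith
    · exact ⟨fun h1 => absurd (hU h1) hg, fun h1 => absurd (hV h1) hg⟩

theorem sum_two_mul21 (m : ℕ) : ∑ j ∈ Finset.range m, 2 * (j + 1) = m * (m + 1) := by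
  induction m with
  | zero => rfl
  | succ m ih =>
    rw [Finset.sum_range_succ, ih]
    ring

/-- strings of two orthogonal short roots and their difference -/
theorem tri_le21 {Φ X : Finset E} (h : NRS Φ) (hX : Sat Φ X) {a g : E} (ha : a ∈ Psi Φ) (hg : g ∈ Psi Φ)
    (hag : inner ℝ a g = (0 : ℝ)) (hd : a - g ∈ Φ) {x : E} (hx : x ∈ X) {m : ℕ}
    (hxa : inner ℝ x a = 2 * (m : ℝ) - 1) {k : ℤ} (hxg : inner ℝ x g = 2 * (k : ℝ) + 1) :
    m * (m + 1) ≤ X.card := by
  classical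
  have a2 := (mem_Psi.1 ha).2
  have g2 := (mem_Psi.1 hg).2
  have hga : inner ℝ g a = (0 : ℝ) := by rw [real_inner_comm]; exact hag
  -- the pairing with `g` is 1
  obtain ⟨y, hy, hya, hyg⟩ : ∃ y ∈ X, inner ℝ y a = 2 * (m : ℝ) - 1 ∧ inner ℝ y g = (1 : ℝ) := by
    rcases le_or_gt 0 k with h1 | h1
    · obtain ⟨j, rfl⟩ := Int.eq_ofNat_of_zero_le h1
      refine ⟨x - (j : ℝ) • g, hX.str_short21 hg hx ?_, ?_, ?_⟩
      · rw [hxg]
        push_cast
        have : (0 : ℝ) ≤ j := Nat.cast_nonneg j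
        linarith
      · rw [inner_sub_left, real_inner_smul_left, hga, hxa]
        ring
      · rw [inner_sub_left, real_inner_smul_left, g2, hxg]
        push_cast
        ring
    · -- `k < 0`, use `-g`
      obtain ⟨j, hj⟩ := Int.eq_ofNat_of_zero_le (a := -k) (by omega)
      have h3 : (j : ℝ) = -(k : ℝ) := by
        have : ((j : ℤ) : ℝ) = ((-k : ℤ) : ℝ) := by rw [← hj]
        push_cast at this
        exact this
      have hk1 : (k : ℝ) ≤ -1 := by exact_mod_cast (by omega : k ≤ -1)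
      refine ⟨x - (j : ℝ) • (-g), hX.str_short21 (h.neg_Psi hg) hx ?_, ?_, ?_⟩
      · rw [inner_neg_right, hxg, h3]
        linarith
      · rw [inner_sub_left, real_inner_smul_left, inner_neg_left, hga, hxa]
        ring
      · rw [inner_sub_left, real_inner_smul_left, inner_neg_left, g2, hxg, h3]
        ring
  have hdd : inner ℝ (a - g) (a - g) = (4 : ℝ) := by
    rw [inner_sub_left, inner_sub_right, inner_sub_right, a2, g2, hag, hga]
    norm_num
  have hcod : co (a - g) y = (m : ℝ) - 1 := by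
    unfold co
    rw [hdd, inner_sub_right, hya, hyg]
    ring
  set I := (Finset.range m).sigma fun j => Finset.range (2 * (j + 1)) with hI
  have hIc : I.card = m * (m + 1) := by
    rw [hI, Finset.card_sigma]
    simp_rw [Finset.card_range]
    exact sum_two_mul21 m
  rw [← hIc]
  have hmem : ∀ j, j < m → y - ((m - 1 - j : ℕ) : ℝ) • (a - g) ∈ X := by
    intro j hj
    refine hX.str _ hd y hy _ ?_
    rw [hcod]
    have h1 : m - 1 - j + j + 1 = m := by omega
    have h2 : ((m - 1 - j : ℕ) : ℝ) + j + 1 = m := by exact_mod_cast h1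
    have h3 : (0 : ℝ) ≤ j := Nat.cast_nonneg j
    linarith
  have hva : ∀ j, j < m → inner ℝ (y - ((m - 1 - j : ℕ) : ℝ) • (a - g)) a = 2 * (j : ℝ) + 1 := by
    intro j hj
    have h1 : m - 1 - j + j + 1 = m := by omega
    have h2 : ((m - 1 - j : ℕ) : ℝ) + j + 1 = m := by exact_mod_cast h1
    rw [inner_sub_left, real_inner_smul_left, inner_sub_left, hya, a2, hga]
    linarith
  have hvg : ∀ j, j < m → inner ℝ (y - ((m - 1 - j : ℕ) : ℝ) • (a - g)) g = 2 * ((m : ℝ) - j) - 1 := by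
    intro j hj
    have h1 : m - 1 - j + j + 1 = m := by omega
    have h2 : ((m - 1 - j : ℕ) : ℝ) + j + 1 = m := by exact_mod_cast h1
    rw [inner_sub_left, real_inner_smul_left, inner_sub_left, hyg, g2, hag]
    linarith
  refine Finset.card_le_card_of_injOn
    (fun s : (_ : ℕ) × ℕ => y - ((m - 1 - s.1 : ℕ) : ℝ) • (a - g) - (s.2 : ℝ) • a) ?_ ?_
  · rintro ⟨j, i⟩ hs
    rw [Finset.mem_coe, hI, Finset.mem_sigma, Finset.mem_range, Finset.mem_range] at hs
    obtain ⟨hj, hi⟩ := hs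
    simp only at hj hi
    refine hX.str_short21 ha (hmem j hj) ?_
    rw [hva j hj]
    have : i ≤ 2 * j + 1 := by omega
    exact_mod_cast this
  · rintro ⟨j, i⟩ hs ⟨j', i'⟩ hs' hss
    rw [Finset.mem_coe, hI, Finset.mem_sigma, Finset.mem_range, Finset.mem_range] at hs hs'
    obtain ⟨hj, hi⟩ := hs
    obtain ⟨hj', hi'⟩ := hs'
    simp only at hj hi hj' hi' hss
    have e1 := congrArg (fun z => inner ℝ z g) hss
    rw [inner_sub_left (y - ((m - 1 - j : ℕ) : ℝ) • (a - g)) ((i : ℝ) • a) g,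
      inner_sub_left (y - ((m - 1 - j' : ℕ) : ℝ) • (a - g)) ((i' : ℝ) • a) g, hvg j hj, hvg j' hj',
      real_inner_smul_left, real_inner_smul_left, hag] at e1
    have e2 : (j : ℝ) = j' := by linarith
    have e3 : j = j' := by exact_mod_cast e2
    subst e3
    have e4 := congrArg (fun z => inner ℝ z a) hss
    rw [inner_sub_left (y - ((m - 1 - j : ℕ) : ℝ) • (a - g)) ((i : ℝ) • a) a,
      inner_sub_left (y - ((m - 1 - j : ℕ) : ℝ) • (a - g)) ((i' : ℝ) • a) a, hva j hj, real_inner_smul_left,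
      real_inner_smul_left, a2] at e4
    have e5 : (i : ℝ) = i' := by linarith
    have e6 : i = i' := by exact_mod_cast e5
    rw [e6]

theorem sq_le_two_pow21 (r : ℕ) : (r - 1) ^ 2 ≤ 2 ^ r := by
  have key : ∀ r, 4 ≤ r → (r - 1) ^ 2 ≤ 2 ^ r := by
    intro r hr
    induction r, hr using Nat.le_induction with
    | base => norm_num
    | succ r hr ih =>
      obtain ⟨s, rfl⟩ := Nat.exists_eq_add_of_le hr
      have e1 : 4 + s - 1 = s + 3 := by omega
      have e2 : 4 + s + 1 - 1 = s + 4 := by omega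
      rw [e1] at ih
      rw [e2, pow_succ 2 (4 + s)]
      nlinarith
  rcases lt_or_ge r 4 with h | h
  · interval_cases r <;> norm_num
  · exact key r h

/-- (E9) with a bound `n` for the number of elements -/
theorem u021 {Φ X : Finset E} (h : NRS Φ) (hX : Sat Φ X) (h0 : (0 : E) ∉ X) (hu : ∀ g ∈ Psi Φ, Nb Φ g = ∅)
    {n p : ℕ} (hn : X.card ≤ n) (hp : 25 * n ≤ p ^ 2) {a lam : E} (ha : a ∈ Φ) (hl : lam ∈ X)
    (hle : (p : ℝ) ≤ co a lam + qs Φ a) : TypeA Φ := by
  classical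
  obtain ⟨a, ha, hle⟩ := short_wlog21 h ha (Nat.cast_nonneg p) hle
  rw [co_short21 ha] at hle
  -- the maximum
  obtain ⟨⟨x, g⟩, hxg, hmax⟩ := Finset.exists_max_image (X ×ˢ Psi Φ) (fun s => (inner ℝ s.1 s.2 : ℝ))
    ⟨(lam, a), Finset.mem_product.2 ⟨hl, ha⟩⟩
  rw [Finset.mem_product] at hxg
  obtain ⟨hx, hg⟩ := hxg
  simp only at hx hg hmax
  by_cases hone : ∀ d ∈ Psi Φ, d = g ∨ d = -g
  · refine ⟨g, fun y => ?_⟩
    constructor
    · intro hy
      by_cases hys : y ∈ Psi Φ
      · exact hone y hys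
      · exfalso
        obtain ⟨b, hb, c, hc, _, hbc⟩ := long_cases21 h hu hy hys
        have g2 := (mem_Psi.1 hg).2
        rcases hone b hb with h1 | h1 <;> rcases hone c hc with h2 | h2 <;> rw [h1, h2] at hbc <;>
          simp only [inner_neg_left, inner_neg_right, g2] at hbc <;> norm_num at hbc
    · rintro (rfl | rfl)
      · exact (mem_Psi.1 hg).1
      · exact (mem_Psi.1 (h.neg_Psi hg)).1
  exfalso
  push Not at hone
  obtain ⟨d, hd, hd1, hd2⟩ := hone
  obtain ⟨k, hk⟩ := odd_of_u021 h hX h0 hu hx hg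
  obtain ⟨l, hl'⟩ := odd_of_u021 h hX h0 hu hx hd
  have hgd : g - d ∈ Φ := by
    rcases all_conn21 h hu hg hd with h1 | h1 | h1
    · exact absurd h1 hd1
    · exact absurd h1 hd2
    · exact h1
  have hgd0 : inner ℝ g d = (0 : ℝ) := by
    rcases short_cases21 h hu hg hd with h1 | h1 | h1
    · exact absurd h1 hd1
    · exact absurd h1 hd2
    · rw [real_inner_comm]; exact h1
  -- `k ≥ 0`
  have hk0 : 0 ≤ k := by
    have h1 := hmax (x, -g) (Finset.mem_product.2 ⟨hx, h.neg_Psi hg⟩)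
    simp only at h1
    rw [inner_neg_right, hk] at h1
    have h2 : (-1 : ℝ) < 2 * k := by
      by_contra h3
      push Not at h3
      have h4 : (2 : ℝ) * k + 1 = 0 := by linarith
      have h5 : (2 * k + 1 : ℤ) = 0 := by exact_mod_cast h4
      omega
    have h3 : (-1 : ℤ) < 2 * k := by exact_mod_cast h2
    omega
  obtain ⟨m', rfl⟩ := Int.eq_ofNat_of_zero_le hk0
  have h1 := tri_le21 h hX hg hd hgd0 hgd hx (m := m' + 1) (by rw [hk]; push_cast; ring) hl'
  obtain ⟨T, hT, hT1, hT2⟩ := exists_half21 Φ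
  have hort : ∀ g ∈ T, ∀ d ∈ T, d ≠ g → inner ℝ d g = (0 : ℝ) := by
    intro g hg d hd hdg
    rcases short_cases21 h hu (hT hg) (hT hd) with h2 | h2 | h2
    · exact absurd h2 hdg
    · rw [h2] at hd
      exact absurd hd (hT1 g hg)
    · exact h2
  have h2 := two_pow_le21 h hX hT hort hx (by
    intro b hb hb0
    obtain ⟨j, hj⟩ := odd_of_u021 h hX h0 hu hx (hT hb)
    rw [hb0] at hj
    have h3 : (0 : ℤ) = 2 * j + 1 := by exact_mod_cast hj
    omega)
  have h3 := sq_le_two_pow21 T.card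
  have h4 := qs_le_u021 h hu ha
  have h5 := hmax (lam, a) (Finset.mem_product.2 ⟨hl, ha⟩)
  simp only at h5
  rw [hk] at h5
  have h6 : ((Psi Φ).card : ℝ) ≤ 2 * T.card := by exact_mod_cast hT2
  have h7 : (p : ℝ) ≤ 2 * (m' : ℝ) + 1 + (2 * T.card - 1) := by
    push_cast at h5
    linarith
  have h8 : (p : ℝ) ≤ ((2 * m' + 2 * T.card : ℕ) : ℝ) := by
    push_cast
    linarith
  have h9 : p ≤ 2 * m' + 2 * T.card := by exact_mod_cast h8
  have hn1 : 1 ≤ n := by
    have : 1 ≤ (m' + 1) * (m' + 1 + 1) := by nlinarith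
    omega
  have hT0 : 1 ≤ T.card := by
    have : 0 < (Psi Φ).card := Finset.card_pos.2 ⟨g, hg⟩
    omega
  obtain ⟨r, hr⟩ := Nat.exists_eq_add_of_le hT0
  rw [hr] at h2 h3 h9
  have e1 : 1 + r - 1 = r := by omega
  rw [e1] at h3
  have h10 : (m' + 1) * (m' + 1 + 1) ≤ n := h1.trans hn
  have h11 : r ^ 2 ≤ n := h3.trans (h2.trans hn)
  have h12 : p ^ 2 ≤ (2 * m' + 2 * (1 + r)) ^ 2 := Nat.pow_le_pow_left h9 2
  have h13 : (2 * m' + 2 * (1 + r)) ^ 2 < 25 * n := by
    nlinarith [sq_nonneg ((m' : ℤ) + 1 - r)]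
  omega

/-- **(E9)** -/
theorem u0 {Φ X : Finset E} (h : NRS Φ) (hX : Sat Φ X) (h0 : (0 : E) ∉ X) (hu : ∀ g ∈ Psi Φ, Nb Φ g = ∅) {p : ℕ}
    (hp : 25 * X.card ≤ p ^ 2) {a x : E} (ha : a ∈ Φ) (hx : x ∈ X) (hb : (p : ℝ) ≤ co a x + qs Φ a) :
    TypeA Φ :=
  u021 h hX h0 hu le_rfl hp ha hx hb

end PF
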